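import Mathlib

/-!
# Two-variable logic and positive two-variable logic on words: definitions (problem MP_eaaecb_lc)
-/

namespace Pool.Agent.Lib.MP_eaaecb_lc

/-- Words over the alphabet of all subsets of `S`, where `S` is the set of unary predicates. -/
abbrev Word (S : Type) : Type := List (Set S)

/-- `u ≤ v`: the words have the same length and `u_i ⊆ v_i` for every position `i`. -/
def Word.Le {S : Type} (u v : Word S) : Prop := List.Forall₂ (fun a b : Set S => a ⊆ b) u v

/-- A language is monotone if it is upward closed for `≤`. -/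
def MonotoneLang {S : Type} (L : Set (Word S)) : Prop :=
  ∀ u ∈ L, ∀ v : Word S, Word.Le u v → v ∈ L

/-- The two variable names. -/
abbrev Var : Type := Bool

/-- First-order formulas over words with the two variable names of `Var`. -/
inductive Form (S : Type) : Type
  | top : Form S
  | bot : Form S
  | letter (a : S) (x : Var) : Form S
  | le (x y : Var) : Form S
  | lt (x y : Var) : Form S
  | succ (x y : Var) : Form S
  | nsucc (x y : Var) : Form S
  | not (φ : Form S) : Form S
  | and (φ ψ : Form S) : Form S
  | or (φ ψ : Form S) : Form S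
  | ex (x : Var) (φ : Form S) : Form S
  | all (x : Var) (φ : Form S) : Form S

variable {S : Type}

/-- Satisfaction of a formula in a word `w` under a valuation of the variables by positions;
positions are the numbers `0, …, |w| - 1`. -/
def Sat (w : Word S) : (Var → ℕ) → Form S → Prop
  | _, .top => True
  | _, .bot => False
  | ν, .letter a x => ∃ h : ν x < w.length, a ∈ w[ν x]
  | ν, .le x y => ν x ≤ ν y
  | ν, .lt x y => ν x < ν y
  | ν, .succ x y => ν y = ν x + 1
  | ν, .nsucc x y => ¬ (ν y = ν x + 1)
  | ν, .not φ => ¬ Sat w ν φ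
  | ν, .and φ ψ => Sat w ν φ ∧ Sat w ν ψ
  | ν, .or φ ψ => Sat w ν φ ∨ Sat w ν ψ
  | ν, .ex x φ => ∃ i < w.length, Sat w (Function.update ν x i) φ
  | ν, .all x φ => ∀ i < w.length, Sat w (Function.update ν x i) φ

/-- The free variables of a formula. -/
def Form.free : Form S → Set Var
  | .top => ∅
  | .bot => ∅
  | .letter _ x => {x}
  | .le x y => {x, y}
  | .lt x y => {x, y}
  | .succ x y => {x, y}
  | .nsucc x y => {x, y}
  | .not φ => φ.free
  | .and φ ψ => φ.free ∪ ψ.free
  | .or φ ψ => φ.free ∪ ψ.free
  | .ex x φ => φ.free \ {x}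
  | .all x φ => φ.free \ {x}

/-- A sentence is a formula without free variables. -/
def Form.IsSentence (φ : Form S) : Prop := φ.free = ∅

/-- Negation-free formulas. -/
def Form.Positive : Form S → Prop
  | .top => True
  | .bot => True
  | .letter _ _ => True
  | .le _ _ => True
  | .lt _ _ => True
  | .succ _ _ => True
  | .nsucc _ _ => True
  | .not _ => False
  | .and φ ψ => φ.Positive ∧ ψ.Positive
  | .or φ ψ => φ.Positive ∧ ψ.Positive
  | .ex _ φ => φ.Positive
  | .all _ φ => φ.Positive

/-- Formulas whose binary position predicates are only `≤` and `<`. -/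
def Form.OnlyOrder : Form S → Prop
  | .top => True
  | .bot => True
  | .letter _ _ => True
  | .le _ _ => True
  | .lt _ _ => True
  | .succ _ _ => False
  | .nsucc _ _ => False
  | .not φ => φ.OnlyOrder
  | .and φ ψ => φ.OnlyOrder ∧ ψ.OnlyOrder
  | .or φ ψ => φ.OnlyOrder ∧ ψ.OnlyOrder
  | .ex _ φ => φ.OnlyOrder
  | .all _ φ => φ.OnlyOrder

/-- The two signatures: `order` has the binary position predicates `≤, <`, and `orderSucc` has
`≤, <, succ, nsucc`. -/
inductive Sig : Type
  | order : Sig
  | orderSucc : Sig

/-- The formula uses only binary predicates of the signature `B`. -/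
def Form.Over (φ : Form S) : Sig → Prop
  | .order => φ.OnlyOrder
  | .orderSucc => True

/-- Truth of a sentence in a word (for a sentence the valuation does not matter). -/
def Holds (w : Word S) (φ : Form S) : Prop := Sat w (fun _ => 0) φ

/-- `L` is definable by a sentence of two-variable first-order logic over the signature `B`. -/
def FO2 (B : Sig) (L : Set (Word S)) : Prop :=
  ∃ φ : Form S, φ.IsSentence ∧ φ.Over B ∧ ∀ w, w ∈ L ↔ Holds w φ

/-- `L` is definable by a negation-free sentence of two-variable first-order logic over the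
signature `B`. -/
def FO2Pos (B : Sig) (L : Set (Word S)) : Prop :=
  ∃ φ : Form S, φ.IsSentence ∧ φ.Over B ∧ φ.Positive ∧ ∀ w, w ∈ L ↔ Holds w φ

end Pool.Agent.Lib.MP_eaaecb_lc
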