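import Mathlib
import Pool.Agent.Lib.MP_eaaecb_lc.Defs

namespace Pool.Agent.Lib.MP_eaaecb_lc

/-! ### Types of positions -/

/-- types of depth `k` -/
def Ty (A : Type) : ℕ → Type
  | 0 => A
  | k + 1 => A × Set (Ty A k) × Set (Ty A k)

instance finite_ty {A : Type} [Finite A] : ∀ k, Finite (Ty A k)
  | 0 => inferInstanceAs (Finite A)
  | k + 1 =>
    haveI := finite_ty (A := A) k
    inferInstanceAs (Finite (A × Set (Ty A k) × Set (Ty A k)))

/-- the type of depth `k` of a position -/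
def ty {A : Type} : (k : ℕ) → {n : ℕ} → (u : Fin n → A) → Fin n → Ty A k
  | 0, _, u, i => u i
  | k + 1, _, u, i => (u i, {t | ∃ j, j < i ∧ ty k u j = t}, {t | ∃ j, i < j ∧ ty k u j = t})

/-- Egli-Milner lifting of a relation -/
def EM {X : Type} (r : X → X → Prop) (P P' : Set X) : Prop :=
  (∀ p ∈ P, ∃ p' ∈ P', r p p') ∧ (∀ p' ∈ P', ∃ p ∈ P, r p p')

/-- the positive preorder on types -/
def tle {A : Type} [LE A] : (k : ℕ) → Ty A k → Ty A k → Prop
  | 0, a, b => (show A from a) ≤ (show A from b)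
  | k + 1, s, t =>
    (show A × Set (Ty A k) × Set (Ty A k) from s).1 ≤ (show A × Set (Ty A k) × Set (Ty A k) from t).1
    ∧ EM (tle k) (show A × Set (Ty A k) × Set (Ty A k) from s).2.1
      (show A × Set (Ty A k) × Set (Ty A k) from t).2.1
    ∧ EM (tle k) (show A × Set (Ty A k) × Set (Ty A k) from s).2.2
      (show A × Set (Ty A k) × Set (Ty A k) from t).2.2

/-- positive simulation of depth `k` -/
def Pre {A : Type} [LE A] (k : ℕ) {n m : ℕ} (u : Fin n → A) (v : Fin m → A) (i : Fin n)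
    (j : Fin m) : Prop := tle k (ty k u i) (ty k v j)

theorem pre_zero {A : Type} [LE A] {n m : ℕ} {u : Fin n → A} {v : Fin m → A} {i : Fin n}
    {j : Fin m} : Pre 0 u v i j ↔ u i ≤ v j := Iff.rfl

theorem pre_succ {A : Type} [LE A] {k n m : ℕ} {u : Fin n → A} {v : Fin m → A} {i : Fin n}
    {j : Fin m} : Pre (k + 1) u v i j ↔ u i ≤ v j ∧
      ((∀ i' < i, ∃ j' < j, Pre k u v i' j') ∧ (∀ j' < j, ∃ i' < i, Pre k u v i' j')) ∧
      ((∀ i' > i, ∃ j' > j, Pre k u v i' j') ∧ (∀ j' > j, ∃ i' > i, Pre k u v i' j')) := by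
  constructor
  · rintro ⟨h1, ⟨h2, h3⟩, ⟨h4, h5⟩⟩
    refine ⟨h1, ⟨?_, ?_⟩, ⟨?_, ?_⟩⟩
    · intro i' hi'
      obtain ⟨_, ⟨j', hj', rfl⟩, h⟩ := h2 _ ⟨i', hi', rfl⟩
      exact ⟨j', hj', h⟩
    · intro j' hj'
      obtain ⟨_, ⟨i', hi', rfl⟩, h⟩ := h3 _ ⟨j', hj', rfl⟩
      exact ⟨i', hi', h⟩
    · intro i' hi'
      obtain ⟨_, ⟨j', hj', rfl⟩, h⟩ := h4 _ ⟨i', hi', rfl⟩
      exact ⟨j', hj', h⟩
    · intro j' hj'
      obtain ⟨_, ⟨i', hi', rfl⟩, h⟩ := h5 _ ⟨j', hj', rfl⟩
      exact ⟨i', hi', h⟩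
  · rintro ⟨h1, ⟨h2, h3⟩, ⟨h4, h5⟩⟩
    refine ⟨h1, ⟨?_, ?_⟩, ⟨?_, ?_⟩⟩
    · rintro _ ⟨i', hi', rfl⟩
      obtain ⟨j', hj', h⟩ := h2 i' hi'
      exact ⟨_, ⟨j', hj', rfl⟩, h⟩
    · rintro _ ⟨j', hj', rfl⟩
      obtain ⟨i', hi', h⟩ := h3 j' hj'
      exact ⟨_, ⟨i', hi', rfl⟩, h⟩
    · rintro _ ⟨i', hi', rfl⟩
      obtain ⟨j', hj', h⟩ := h4 i' hi'
      exact ⟨_, ⟨j', hj', rfl⟩, h⟩
    · rintro _ ⟨j', hj', rfl⟩
      obtain ⟨i', hi', h⟩ := h5 j' hj'
      exact ⟨_, ⟨i', hi', rfl⟩, h⟩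

theorem Pre.le {A : Type} [LE A] {k n m : ℕ} {u : Fin n → A} {v : Fin m → A} {i : Fin n}
    {j : Fin m} (h : Pre k u v i j) : u i ≤ v j := by
  cases k with
  | zero => exact h
  | succ k => exact (pre_succ.mp h).1

theorem Pre.mono {A : Type} [LE A] {n m : ℕ} {u : Fin n → A} {v : Fin m → A} {k : ℕ} :
    ∀ {i : Fin n} {j : Fin m}, Pre (k + 1) u v i j → Pre k u v i j := by
  induction k with
  | zero => intro i j h; exact h.le
  | succ k ih =>
    intro i j h
    obtain ⟨h1, ⟨h2, h3⟩, ⟨h4, h5⟩⟩ := pre_succ.mp h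
    refine pre_succ.mpr ⟨h1, ⟨?_, ?_⟩, ⟨?_, ?_⟩⟩
    · intro i' hi'; obtain ⟨j', hj', h⟩ := h2 i' hi'; exact ⟨j', hj', ih h⟩
    · intro j' hj'; obtain ⟨i', hi', h⟩ := h3 j' hj'; exact ⟨i', hi', ih h⟩
    · intro i' hi'; obtain ⟨j', hj', h⟩ := h4 i' hi'; exact ⟨j', hj', ih h⟩
    · intro j' hj'; obtain ⟨i', hi', h⟩ := h5 j' hj'; exact ⟨i', hi', ih h⟩

/-! ### Markers and locations -/

/-- `x` is a marker: first or last position of its type of depth `j`, for some `j ≤ k`. -/
def Marker {A : Type} (k : ℕ) {n : ℕ} (u : Fin n → A) (x : Fin n) : Prop :=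
  ∃ j ≤ k, (∀ y < x, ty j u y ≠ ty j u x) ∨ (∀ y > x, ty j u y ≠ ty j u x)

open Classical in
/-- the finite set of markers -/
noncomputable def markers {A : Type} (k : ℕ) {n : ℕ} (u : Fin n → A) : Finset (Fin n) :=
  Finset.univ.filter (Marker k u)

theorem mem_markers {A : Type} {k : ℕ} {n : ℕ} {u : Fin n → A} {x : Fin n} :
    x ∈ markers k u ↔ Marker k u x := by
  classical
  simp [markers]

theorem exists_first {A : Type} {k j : ℕ} (hj : j ≤ k) {n : ℕ} (u : Fin n → A) (x : Fin n) :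
    ∃ m ≤ x, m ∈ markers k u ∧ ty j u m = ty j u x := by
  classical
  let s : Finset (Fin n) := Finset.univ.filter (fun y => ty j u y = ty j u x)
  have hs : s.Nonempty := ⟨x, by simp [s]⟩
  have h1 := s.min'_mem hs
  simp only [s, Finset.mem_filter, Finset.mem_univ, true_and] at h1
  refine ⟨s.min' hs, s.min'_le x (by simp [s]), ?_, h1⟩
  rw [mem_markers]
  refine ⟨j, hj, Or.inl fun y hy he => ?_⟩
  have : s.min' hs ≤ y := s.min'_le y (by simp [s]; rw [he]; exact h1)
  exact absurd hy (not_lt.mpr this)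

theorem exists_last {A : Type} {k j : ℕ} (hj : j ≤ k) {n : ℕ} (u : Fin n → A) (x : Fin n) :
    ∃ m ≥ x, m ∈ markers k u ∧ ty j u m = ty j u x := by
  classical
  let s : Finset (Fin n) := Finset.univ.filter (fun y => ty j u y = ty j u x)
  have hs : s.Nonempty := ⟨x, by simp [s]⟩
  have h1 := s.max'_mem hs
  simp only [s, Finset.mem_filter, Finset.mem_univ, true_and] at h1
  refine ⟨s.max' hs, s.le_max' x (by simp [s]), ?_, h1⟩
  rw [mem_markers]
  refine ⟨j, hj, Or.inr fun y hy he => ?_⟩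
  have : y ≤ s.max' hs := s.le_max' y (by simp [s]; rw [he]; exact h1)
  exact absurd hy (not_lt.mpr this)

/-- bound on the number of markers -/
theorem exists_marker_bound (A : Type) [Finite A] (k : ℕ) :
    ∃ N, ∀ (n : ℕ) (u : Fin n → A), (markers k u).card ≤ N := by
  classical
  have : ∀ j, Fintype (Ty A j) := fun j => Fintype.ofFinite _
  let X := (j : Fin (k + 1)) × (Bool × Ty A j)
  have : Fintype X := inferInstance
  refine ⟨Fintype.card X, fun n u => ?_⟩
  have hch : ∀ x : {x // x ∈ markers k u}, ∃ z : X,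
      (z.2.1 = true → ∀ y < x.1, ty z.1 u y ≠ ty z.1 u x.1) ∧
      (z.2.1 = false → ∀ y > x.1, ty z.1 u y ≠ ty z.1 u x.1) ∧ z.2.2 = ty z.1 u x.1 := by
    rintro ⟨x, hx⟩
    obtain ⟨j, hj, h | h⟩ := mem_markers.mp hx
    · exact ⟨⟨⟨j, by omega⟩, true, ty j u x⟩, fun _ => h, fun h' => by simp at h', rfl⟩
    · exact ⟨⟨⟨j, by omega⟩, false, ty j u x⟩, fun h' => by simp at h', fun _ => h, rfl⟩
  choose g hg using hch
  rw [← Fintype.card_coe]
  apply Fintype.card_le_of_injective g
  intro x y hxy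
  obtain ⟨h1, h2, h3⟩ := hg x
  obtain ⟨h4, h5, h6⟩ := hg y
  rw [hxy] at h1 h2 h3
  by_contra hne
  have hne' : x.1 ≠ y.1 := fun h => hne (Subtype.ext h)
  rcases lt_or_gt_of_ne hne' with hlt | hlt
  · cases hb : (g y).2.1 with
    | true => exact h4 hb x.1 hlt (h3.symm.trans h6)
    | false => exact h2 hb y.1 hlt (h6.symm.trans h3)
  · cases hb : (g y).2.1 with
    | true => exact h1 hb y.1 hlt (h6.symm.trans h3)
    | false => exact h5 hb x.1 hlt (h3.symm.trans h6)

open Classical in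
/-- location of a position with respect to a set of markers -/
noncomputable def loc {n : ℕ} (X : Finset (Fin n)) (x : Fin n) : ℕ :=
  2 * (X.filter (· < x)).card + (if x ∈ X then 1 else 0)

theorem loc_le_of_lt {n : ℕ} (X : Finset (Fin n)) {x y : Fin n} (h : x < y) :
    loc X x ≤ loc X y ∧ ((x ∈ X ∨ y ∈ X) → loc X x < loc X y) := by
  classical
  have hsub : X.filter (· < x) ⊆ X.filter (· < y) := by
    intro z hz
    simp only [Finset.mem_filter] at hz ⊢
    exact ⟨hz.1, hz.2.trans h⟩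
  have hcard := Finset.card_le_card hsub
  unfold loc
  by_cases hx : x ∈ X
  · have hlt : (X.filter (· < x)).card < (X.filter (· < y)).card := by
      apply Finset.card_lt_card
      refine ⟨hsub, fun hcon => ?_⟩
      have := hcon (show x ∈ X.filter (· < y) by simp [hx, h])
      simp at this
    by_cases hy : y ∈ X <;> simp only [hx, hy, if_true, if_false] <;> constructor <;> intros <;> omega
  · by_cases hy : y ∈ X <;> simp only [hx, hy, if_true, if_false] <;> constructor <;> intros <;>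
      first | omega | (rename_i h'; simp at h')

theorem loc_mono {n : ℕ} (X : Finset (Fin n)) {x y : Fin n} (h : x ≤ y) : loc X x ≤ loc X y := by
  rcases h.lt_or_eq with h | h
  · exact (loc_le_of_lt X h).1
  · rw [h]

theorem lt_of_loc_lt {n : ℕ} (X : Finset (Fin n)) {x y : Fin n} (h : loc X x < loc X y) : x < y := by
  by_contra hcon
  exact absurd (loc_mono X (not_lt.mp hcon)) (not_le.mpr h)

theorem loc_inj {n : ℕ} (X : Finset (Fin n)) {x y : Fin n} (h : loc X x = loc X y) (hx : x ∈ X) :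
    x = y := by
  by_contra hne
  rcases lt_or_gt_of_ne hne with hlt | hlt
  · exact absurd h ((loc_le_of_lt X hlt).2 (Or.inl hx)).ne
  · exact absurd h ((loc_le_of_lt X hlt).2 (Or.inr hx)).ne'

theorem loc_bound {n : ℕ} (X : Finset (Fin n)) (x : Fin n) : loc X x ≤ 2 * X.card := by
  classical
  unfold loc
  by_cases hx : x ∈ X
  · have : (X.filter (· < x)).card < X.card := by
      apply Finset.card_lt_card
      refine ⟨Finset.filter_subset _ _, fun hcon => ?_⟩
      have := hcon hx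
      simp at this
    simp only [hx, if_true]
    omega
  · have : (X.filter (· < x)).card ≤ X.card := Finset.card_filter_le _ _
    simp only [hx, if_false]
    omega

theorem loc_le_of_forall {n : ℕ} (X : Finset (Fin n)) {x y : Fin n} (hx : x ∉ X)
    (h : ∀ m ∈ X, m < x → m < y) : loc X x ≤ loc X y := by
  classical
  unfold loc
  have hsub : X.filter (· < x) ⊆ X.filter (· < y) := by
    intro z hz
    simp only [Finset.mem_filter] at hz ⊢
    exact ⟨hz.1, h z hz.1 hz.2⟩
  have hcard := Finset.card_le_card hsub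
  simp only [hx, if_false]
  omega

/-- A map between positions compatible with the zones and markers. -/
structure ZoneMap {n n' : ℕ} (X : Finset (Fin n)) (f : Fin n' → Fin n) : Prop where
  mono : ∀ p q, p < q → loc X (f p) ≤ loc X (f q)
  uniq : ∀ p q, p < q → f p = f q → f p ∉ X
  surj : ∀ m ∈ X, ∃ p, f p = m

theorem ZoneMap.ty_eq {A : Type} {k n n' : ℕ} {u : Fin n → A} {f : Fin n' → Fin n}
    (hf : ZoneMap (markers k u) f) : ∀ j ≤ k + 1, ∀ p, ty j (fun q => u (f q)) p = ty j u (f p) := by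
  intro j
  induction j with
  | zero => intro _ p; rfl
  | succ j ih =>
    intro hj p
    have ih' := ih (by omega)
    have hj' : j ≤ k := by omega
    have e1 : {t | ∃ q, q < p ∧ ty j (fun q => u (f q)) q = t} = {t | ∃ y, y < f p ∧ ty j u y = t} := by
      ext t
      constructor
      · rintro ⟨q, hq, rfl⟩
        rw [ih' q]
        by_cases hlt : f q < f p
        · exact ⟨f q, hlt, rfl⟩
        · have h1 : loc (markers k u) (f q) ≤ loc (markers k u) (f p) := hf.mono q p hq
          have h2 : loc (markers k u) (f p) ≤ loc (markers k u) (f q) := loc_mono _ (not_lt.mp hlt)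
          have h3 : loc (markers k u) (f q) = loc (markers k u) (f p) := le_antisymm h1 h2
          have hnp : f p ∉ markers k u := by
            intro hmem
            have h4 := loc_inj _ h3.symm hmem
            exact hf.uniq q p hq h4.symm (h4 ▸ hmem)
          obtain ⟨m, hm1, hm2, hm3⟩ := exists_first hj' u (f q)
          have hmq : m < f q := by
            rcases hm1.lt_or_eq with h | h
            · exact h
            · exfalso
              rw [h] at hm2
              have := loc_inj _ h3 hm2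
              rw [this] at hm2
              exact hnp hm2
          have h5 : loc (markers k u) m < loc (markers k u) (f q) :=
            (loc_le_of_lt _ hmq).2 (Or.inl hm2)
          rw [h3] at h5
          exact ⟨m, lt_of_loc_lt _ h5, hm3⟩
      · rintro ⟨y, hy, rfl⟩
        obtain ⟨m, hm1, hm2, hm3⟩ := exists_first hj' u y
        obtain ⟨q, hq⟩ := hf.surj m hm2
        refine ⟨q, ?_, ?_⟩
        · by_contra hcon
          have hmp : m < f p := lt_of_le_of_lt hm1 hy
          have h5 := (loc_le_of_lt (markers k u) hmp).2 (Or.inl hm2)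
          rcases (not_lt.mp hcon).lt_or_eq with h | h
          · have := hf.mono p q h
            rw [hq] at this
            omega
          · rw [h, hq] at hmp
            exact lt_irrefl _ hmp
        · rw [ih' q, hq]
          exact hm3
    have e2 : {t | ∃ q, p < q ∧ ty j (fun q => u (f q)) q = t} = {t | ∃ y, f p < y ∧ ty j u y = t} := by
      ext t
      constructor
      · rintro ⟨q, hq, rfl⟩
        rw [ih' q]
        by_cases hlt : f p < f q
        · exact ⟨f q, hlt, rfl⟩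
        · have h1 : loc (markers k u) (f p) ≤ loc (markers k u) (f q) := hf.mono p q hq
          have h2 : loc (markers k u) (f q) ≤ loc (markers k u) (f p) := loc_mono _ (not_lt.mp hlt)
          have h3 : loc (markers k u) (f q) = loc (markers k u) (f p) := le_antisymm h2 h1
          have hnp : f p ∉ markers k u := by
            intro hmem
            have h4 := loc_inj _ h3.symm hmem
            exact hf.uniq p q hq h4 hmem
          obtain ⟨m, hm1, hm2, hm3⟩ := exists_last hj' u (f q)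
          have hmq : f q < m := by
            rcases hm1.lt_or_eq with h | h
            · exact h
            · exfalso
              rw [← h] at hm2
              have := loc_inj _ h3 hm2
              rw [this] at hm2
              exact hnp hm2
          have h5 : loc (markers k u) (f q) < loc (markers k u) m :=
            (loc_le_of_lt _ hmq).2 (Or.inr hm2)
          rw [h3] at h5
          exact ⟨m, lt_of_loc_lt _ h5, hm3⟩
      · rintro ⟨y, hy, rfl⟩
        obtain ⟨m, hm1, hm2, hm3⟩ := exists_last hj' u y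
        obtain ⟨q, hq⟩ := hf.surj m hm2
        refine ⟨q, ?_, ?_⟩
        · by_contra hcon
          have hmp : f p < m := lt_of_lt_of_le hy hm1
          have h5 := (loc_le_of_lt (markers k u) hmp).2 (Or.inr hm2)
          rcases (not_lt.mp hcon).lt_or_eq with h | h
          · have := hf.mono q p h
            rw [hq] at this
            omega
          · rw [← h, hq] at hmp
            exact lt_irrefl _ hmp
        · rw [ih' q, hq]
          exact hm3
    show (_, _, _) = (_, _, _)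
    rw [e1, e2]


/-! ### The merging lemma -/

section merge

variable {A : Type} [LE A] {n m : ℕ} (u : Fin n → A) (v : Fin m → A) (X : Finset (Fin n))
  (Y : Finset (Fin m))

theorem Pre.mono_le {k k' : ℕ} (h : k ≤ k') {i : Fin n} {j : Fin m} (hp : Pre k' u v i j) :
    Pre k u v i j := by
  induction h with
  | refl => exact hp
  | step _ ih => exact ih hp.mono

/-- the set of locations of matches -/
def matchSet (k p : ℕ) : Set ℕ := {q | ∃ x y, loc X x = p ∧ loc Y y = q ∧ Pre k u v x y}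

/-- lowest match -/
noncomputable def lowest (k p : ℕ) : ℕ := sInf (matchSet u v X Y k p)

theorem exists_stable {K : ℕ} (hK : (2 * X.card + 1) * (2 * Y.card) < K)
    (h1 : ∀ x, ∃ y, Pre K u v x y) :
    ∃ k, k + 1 ≤ K ∧ ∀ x, lowest u v X Y k (loc X x) = lowest u v X Y (k + 1) (loc X x) := by
  have hmono : ∀ k < K, ∀ p, lowest u v X Y k p ≤ lowest u v X Y (k + 1) p := by
    intro k hk p
    by_cases hne : (matchSet u v X Y (k + 1) p).Nonempty
    · obtain ⟨x, y, hx, hy, hxy⟩ := Nat.sInf_mem hne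
      exact Nat.sInf_le ⟨x, y, hx, hy, hxy.mono⟩
    · have : matchSet u v X Y k p = ∅ := by
        rw [Set.eq_empty_iff_forall_notMem]
        rintro q ⟨x, y, hx, hy, hxy⟩
        obtain ⟨y', hy'⟩ := h1 x
        exact hne ⟨_, x, y', hx, rfl, Pre.mono_le u v (by omega) hy'⟩
      simp [lowest, this]
  have hbound : ∀ k p, lowest u v X Y k p ≤ 2 * Y.card := by
    intro k p
    by_cases hne : (matchSet u v X Y k p).Nonempty
    · obtain ⟨x, y, hx, hy, hxy⟩ := Nat.sInf_mem hne
      have := loc_bound Y y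
      unfold lowest
      omega
    · rw [Set.not_nonempty_iff_eq_empty] at hne
      simp [lowest, hne]
  by_contra hcon
  push Not at hcon
  have hsum : ∀ k ≤ K, k ≤ ∑ p ∈ Finset.range (2 * X.card + 1), lowest u v X Y k p := by
    intro k
    induction k with
    | zero => intro _; exact Nat.zero_le _
    | succ k ih =>
      intro hk
      obtain ⟨x, hx⟩ := hcon k hk
      have h3 : ∑ p ∈ Finset.range (2 * X.card + 1), lowest u v X Y k p <
          ∑ p ∈ Finset.range (2 * X.card + 1), lowest u v X Y (k + 1) p := by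
        apply Finset.sum_lt_sum
        · intro p _; exact hmono k (by omega) p
        · refine ⟨loc X x, ?_, lt_of_le_of_ne (hmono k (by omega) _) hx⟩
          have := loc_bound X x
          simp only [Finset.mem_range]
          omega
      have := ih (by omega)
      omega
  have h4 := hsum K le_rfl
  have h5 : ∑ p ∈ Finset.range (2 * X.card + 1), lowest u v X Y K p ≤
      (2 * X.card + 1) * (2 * Y.card) := by
    have := Finset.sum_le_card_nsmul (Finset.range (2 * X.card + 1))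
      (fun p => lowest u v X Y K p) (2 * Y.card) (fun p _ => hbound K p)
    simpa using this
  omega

theorem merge {K : ℕ} (hK : (2 * X.card + 1) * (2 * Y.card) < K)
    (h1 : ∀ x, ∃ y, Pre K u v x y) (h2 : ∀ y, ∃ x, Pre K u v x y) :
    ∃ (N : ℕ) (f : Fin N → Fin n) (g : Fin N → Fin m),
      ZoneMap X f ∧ ZoneMap Y g ∧ ∀ p, u (f p) ≤ v (g p) := by
  classical
  obtain ⟨k, hk, hst⟩ := exists_stable u v X Y hK h1
  let F : Fin n → ℕ := fun x => lowest u v X Y k (loc X x)
  have hF1 : ∀ x y, Pre k u v x y → F x ≤ loc Y y := by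
    intro x y hxy
    exact Nat.sInf_le ⟨x, y, rfl, rfl, hxy⟩
  have hF2 : ∀ x, ∃ x' y, loc X x' = loc X x ∧ loc Y y = F x ∧ Pre (k + 1) u v x' y := by
    intro x
    have hne : (matchSet u v X Y (k + 1) (loc X x)).Nonempty := by
      obtain ⟨y, hy⟩ := h1 x
      exact ⟨_, x, y, rfl, rfl, Pre.mono_le u v hk hy⟩
    obtain ⟨x', y, hx', hy, hxy⟩ := Nat.sInf_mem hne
    refine ⟨x', y, hx', ?_, hxy⟩
    rw [hy]
    exact (hst x).symm
  have hmono : ∀ x x', loc X x < loc X x' → F x ≤ F x' := by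
    intro x x' hlt
    obtain ⟨x'', y, hx'', hy, hxy⟩ := hF2 x'
    rw [← hx''] at hlt
    have hlt' := lt_of_loc_lt X hlt
    obtain ⟨_, ⟨hb, _⟩, _⟩ := pre_succ.mp hxy
    obtain ⟨y', hy', hxy'⟩ := hb x hlt'
    calc F x ≤ loc Y y' := hF1 x y' hxy'
      _ ≤ loc Y y := loc_mono Y hy'.le
      _ = F x' := hy
  have hmono' : ∀ x ∈ X, ∀ x', x ≤ x' → F x ≤ F x' := by
    intro x hx x' hle
    rcases hle.lt_or_eq with h | h
    · exact hmono x x' ((loc_le_of_lt X h).2 (Or.inl hx))
    · rw [h]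
  have hφ : ∀ x ∈ X, ∃ y, loc Y y = F x ∧ Pre (k + 1) u v x y := by
    intro x hx
    obtain ⟨x', y, hx', hy, hxy⟩ := hF2 x
    have : x = x' := loc_inj X hx'.symm hx
    subst this
    exact ⟨y, hy, hxy⟩
  have hm : ∀ x ∈ X, Nonempty (Fin m) := fun x hx => ⟨(hφ x hx).choose⟩
  let φ : Fin n → Option (Fin m) := fun x => if hx : x ∈ X then some (hφ x hx).choose else none
  have hφ' : ∀ x ∈ X, ∃ y, φ x = some y ∧ loc Y y = F x ∧ Pre (k + 1) u v x y := by
    intro x hx
    refine ⟨(hφ x hx).choose, by simp [φ, hx], (hφ x hx).choose_spec⟩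
  -- monotonicity of φ
  have hφ1 : ∀ x ∈ X, ∀ x' ∈ X, x < x' → ∀ y y', φ x = some y → φ x' = some y' →
      loc Y y ≤ loc Y y' ∧ (y' ∈ Y → loc Y y < loc Y y') := by
    intro x hx x' hx' hlt y y' hy hy'
    obtain ⟨z, hz1, hz2, hz3⟩ := hφ' x hx
    obtain ⟨z', hz1', hz2', hz3'⟩ := hφ' x' hx'
    rw [hy] at hz1
    rw [hy'] at hz1'
    simp only [Option.some.injEq] at hz1 hz1'
    subst hz1 hz1'
    refine ⟨?_, ?_⟩
    · rw [hz2, hz2']
      exact hmono' x hx x' hlt.le
    · intro hyY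
      obtain ⟨_, ⟨hb, _⟩, _⟩ := pre_succ.mp hz3'
      obtain ⟨y'', hy'', hxy''⟩ := hb x hlt
      calc loc Y y = F x := hz2
        _ ≤ loc Y y'' := hF1 x y'' hxy''
        _ < loc Y y' := (loc_le_of_lt Y hy'').2 (Or.inr hyY)
  have hψ : ∀ y ∈ Y, (∀ x ∈ X, φ x ≠ some y) → ∃ x', x' ∉ X ∧ Pre k u v x' y ∧
      ∀ x ∈ X, ∀ y', φ x = some y' → (x < x' ↔ loc Y y' < loc Y y) := by
    intro y hy hno
    have hne : ∀ x ∈ X, ∀ y', φ x = some y' → loc Y y' ≠ loc Y y := by
      intro x hx y' hy' he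
      have := loc_inj Y he.symm hy
      exact hno x hx (by rw [hy', this])
    have hgt : ∀ x' : Fin n, Pre k u v x' y → ∀ x ∈ X, ∀ y', φ x = some y' →
        ¬ loc Y y' < loc Y y → x' < x := by
      intro x' hx' x hx y' hy' hnlt
      by_contra hcon
      have h3 := hmono' x hx x' (not_lt.mp hcon)
      have h4 := hF1 x' y hx'
      obtain ⟨z, hz1, hz2, _⟩ := hφ' x hx
      rw [hy'] at hz1
      simp only [Option.some.injEq] at hz1
      subst hz1
      have := hne x hx y' hy'
      omega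
    let D := X.filter (fun x => ∃ y', φ x = some y' ∧ loc Y y' < loc Y y)
    rcases D.eq_empty_or_nonempty with hD | hD
    · obtain ⟨x', hx'⟩ := h2 y
      have hx'k : Pre k u v x' y := Pre.mono_le u v (by omega) hx'
      have hD' : ∀ x ∈ X, ∀ y', φ x = some y' → ¬ loc Y y' < loc Y y := by
        intro x hx y' hy' hlt
        have : x ∈ D := by
          simp only [D, Finset.mem_filter]
          exact ⟨hx, y', hy', hlt⟩
        rw [hD] at this
        simp at this
      refine ⟨x', ?_, hx'k, ?_⟩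
      · intro hmem
        obtain ⟨z, hz1, _⟩ := hφ' x' hmem
        exact lt_irrefl _ (hgt x' hx'k x' hmem z hz1 (hD' x' hmem z hz1))
      · intro x hx y' hy'
        have h5 := hgt x' hx'k x hx y' hy' (hD' x hx y' hy')
        constructor
        · intro h6; exact absurd (h5.trans h6) (lt_irrefl _)
        · intro h6; exact absurd h6 (hD' x hx y' hy')
    · have hmaxmem := D.max'_mem hD
      set xi := D.max' hD with hxi
      simp only [D, Finset.mem_filter] at hmaxmem
      obtain ⟨hxiX, yi, hyi, hlt⟩ := hmaxmem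
      obtain ⟨z, hz1, hz2, hz3⟩ := hφ' xi hxiX
      rw [hyi] at hz1
      simp only [Option.some.injEq] at hz1
      subst hz1
      have hlt' := lt_of_loc_lt Y hlt
      obtain ⟨_, _, ⟨_, hb⟩⟩ := pre_succ.mp hz3
      obtain ⟨x', hx', hxy'⟩ := hb y hlt'
      have hle : ∀ x ∈ X, ∀ y', φ x = some y' → loc Y y' < loc Y y → x < x' := by
        intro x hx y' hy' h6
        have : x ∈ D := by
          simp only [D, Finset.mem_filter]
          exact ⟨hx, y', hy', h6⟩
        exact lt_of_le_of_lt (D.le_max' x this) hx'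
      refine ⟨x', ?_, hxy', ?_⟩
      · intro hmem
        obtain ⟨z, hz1, _⟩ := hφ' x' hmem
        by_cases h6 : loc Y z < loc Y y
        · exact lt_irrefl _ (hle x' hmem z hz1 h6)
        · exact lt_irrefl _ (hgt x' hxy' x' hmem z hz1 h6)
      · intro x hx y' hy'
        constructor
        · intro h6
          by_contra h7
          exact absurd (h6.trans (hgt x' hxy' x hx y' hy' h7)) (lt_irrefl _)
        · exact hle x hx y' hy'
  have hψ0 : ∀ y : Fin m, ∃ x', y ∈ Y → (∀ x ∈ X, φ x ≠ some y) → x' ∉ X ∧ Pre k u v x' y ∧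
      ∀ x ∈ X, ∀ y', φ x = some y' → (x < x' ↔ loc Y y' < loc Y y) := by
    intro y
    by_cases hy : y ∈ Y ∧ ∀ x ∈ X, φ x ≠ some y
    · obtain ⟨x', hx'⟩ := hψ y hy.1 hy.2
      exact ⟨x', fun _ _ => hx'⟩
    · obtain ⟨x', _⟩ := h2 y
      exact ⟨x', fun ha hb => absurd ⟨ha, hb⟩ hy⟩
  choose ψ hψ' using hψ0
  have hψ1 := fun y hy hno => (hψ' y hy hno).1
  have hψ2 := fun y hy hno => (hψ' y hy hno).2.1
  have hψ3 := fun y hy hno => (hψ' y hy hno).2.2
  -- the chain
  let Z : Finset (Fin n × Fin m) := Finset.univ.filter (fun z =>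
    (z.1 ∈ X ∧ φ z.1 = some z.2) ∨ (z.2 ∈ Y ∧ (∀ x ∈ X, φ x ≠ some z.2) ∧ z.1 = ψ z.2))
  have hZ : ∀ z, z ∈ Z ↔ ((z.1 ∈ X ∧ φ z.1 = some z.2) ∨
      (z.2 ∈ Y ∧ (∀ x ∈ X, φ x ≠ some z.2) ∧ z.1 = ψ z.2)) := by
    intro z; simp [Z]
  let s : Fin n × Fin m → ℕ := fun z => loc X z.1 + loc Y z.2
  have hcmp : ∀ z ∈ Z, ∀ z' ∈ Z, z ≠ z' →
      (loc X z.1 ≤ loc X z'.1 ∧ loc Y z.2 ≤ loc Y z'.2 ∧ s z < s z') ∨
      (loc X z'.1 ≤ loc X z.1 ∧ loc Y z'.2 ≤ loc Y z.2 ∧ s z' < s z) := by
    have hab : ∀ x y, x ∈ X → φ x = some y → ∀ y', y' ∈ Y → (∀ x ∈ X, φ x ≠ some y') →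
        (loc X x ≤ loc X (ψ y') ∧ loc Y y ≤ loc Y y' ∧ s (x, y) < s (ψ y', y')) ∨
        (loc X (ψ y') ≤ loc X x ∧ loc Y y' ≤ loc Y y ∧ s (ψ y', y') < s (x, y)) := by
      intro x y hx hy y' hy' hno
      have h3 := hψ3 y' hy' hno x hx y hy
      have h4 := hψ1 y' hy' hno
      by_cases h5 : loc Y y < loc Y y'
      · left
        have h6 := h3.mpr h5
        have h7 := (loc_le_of_lt X h6).1
        refine ⟨h7, h5.le, ?_⟩
        simp only [s]; omega
      · right
        have h6 : ¬ x < ψ y' := fun h => h5 (h3.mp h)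
        have h7 : loc X (ψ y') ≤ loc X x := loc_mono X (not_lt.mp h6)
        have h8 : loc Y y ≠ loc Y y' := by
          intro he
          have := loc_inj Y he.symm hy'
          exact hno x hx (by rw [hy, this])
        refine ⟨h7, by omega, ?_⟩
        simp only [s]; omega
    rintro ⟨x, y⟩ hz ⟨x', y'⟩ hz' hne
    rw [hZ] at hz hz'
    rcases hz with ⟨hx, hy⟩ | ⟨hy, hno, hx⟩ <;> rcases hz' with ⟨hx', hy'⟩ | ⟨hy', hno', hx'⟩ <;>
      dsimp only at hx hy hx' hy' ⊢
    · have hxx : x ≠ x' := by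
        rintro rfl
        rw [hy] at hy'
        simp only [Option.some.injEq] at hy'
        exact hne (by rw [hy'])
      rcases lt_or_gt_of_ne hxx with h | h
      · left
        have h3 := (loc_le_of_lt X h).2 (Or.inl hx)
        have h4 := (hφ1 x hx x' hx' h y y' hy hy').1
        refine ⟨h3.le, h4, ?_⟩
        simp only [s]; omega
      · right
        have h3 := (loc_le_of_lt X h).2 (Or.inl hx')
        have h4 := (hφ1 x' hx' x hx h y' y hy' hy).1
        refine ⟨h3.le, h4, ?_⟩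
        simp only [s]; omega
    · subst hx'
      exact hab x y hx hy y' hy' hno'
    · subst hx
      exact (hab x' y' hx' hy' y hy hno).symm
    · have hyy : y ≠ y' := by
        rintro rfl
        exact hne (by rw [hx, hx'])
      have aux : ∀ y₁ y₂, y₁ ∈ Y → y₂ ∈ Y → (∀ x ∈ X, φ x ≠ some y₁) → (∀ x ∈ X, φ x ≠ some y₂) →
          y₁ < y₂ → loc X (ψ y₁) ≤ loc X (ψ y₂) ∧ loc Y y₁ < loc Y y₂ := by
        intro y₁ y₂ hy₁ hy₂ hno₁ hno₂ hlt
        have h3 := (loc_le_of_lt Y hlt).2 (Or.inl hy₁)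
        refine ⟨loc_le_of_forall X (hψ1 y₁ hy₁ hno₁) ?_, h3⟩
        intro x hx hlt'
        obtain ⟨z, hz1, _⟩ := hφ' x hx
        have h4 := (hψ3 y₁ hy₁ hno₁ x hx z hz1).mp hlt'
        exact (hψ3 y₂ hy₂ hno₂ x hx z hz1).mpr (h4.trans h3)
      subst hx hx'
      rcases lt_or_gt_of_ne hyy with h | h
      · left
        obtain ⟨h3, h4⟩ := aux y y' hy hy' hno hno' h
        refine ⟨h3, h4.le, ?_⟩
        simp only [s]; omega
      · right
        obtain ⟨h3, h4⟩ := aux y' y hy' hy hno' hno h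
        refine ⟨h3, h4.le, ?_⟩
        simp only [s]; omega
  have hsinj : ∀ z ∈ Z, ∀ z' ∈ Z, s z = s z' → z = z' := by
    intro z hz z' hz' he
    by_contra hne
    rcases hcmp z hz z' hz' hne with h | h
    · omega
    · omega
  let T : Finset ℕ := Z.image s
  let e : Fin T.card ↪o ℕ := T.orderEmbOfFin rfl
  have hch : ∀ p : Fin T.card, ∃ z ∈ Z, s z = e p := by
    intro p
    have : e p ∈ T := T.orderEmbOfFin_mem rfl p
    exact Finset.mem_image.mp this
  choose z hz1 hz2 using hch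
  have hlt : ∀ p q, p < q → loc X (z p).1 ≤ loc X (z q).1 ∧ loc Y (z p).2 ≤ loc Y (z q).2 ∧
      z p ≠ z q := by
    intro p q hpq
    have h3 : e p < e q := e.strictMono hpq
    rw [← hz2 p, ← hz2 q] at h3
    have hne : z p ≠ z q := by
      intro he
      rw [he] at h3
      exact lt_irrefl _ h3
    rcases hcmp _ (hz1 p) _ (hz1 q) hne with h | h
    · exact ⟨h.1, h.2.1, hne⟩
    · omega
  have hsurj : ∀ w ∈ Z, ∃ p, z p = w := by
    intro w hw
    have h3 : s w ∈ T := Finset.mem_image_of_mem s hw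
    have h4 : s w ∈ Set.range e := by
      rw [T.range_orderEmbOfFin rfl]
      exact h3
    obtain ⟨p, hp⟩ := h4
    refine ⟨p, hsinj _ (hz1 p) _ hw ?_⟩
    rw [hz2 p, hp]
  refine ⟨T.card, fun p => (z p).1, fun p => (z p).2, ⟨?_, ?_, ?_⟩, ⟨?_, ?_, ?_⟩, ?_⟩
  · intro p q hpq
    exact (hlt p q hpq).1
  · intro p q hpq he hmem
    apply (hlt p q hpq).2.2
    have hp := (hZ _).mp (hz1 p)
    have hq := (hZ _).mp (hz1 q)
    have hp' : φ (z p).1 = some (z p).2 := by
      rcases hp with h | h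
      · exact h.2
      · exfalso
        rw [h.2.2] at hmem
        exact hψ1 _ h.1 h.2.1 hmem
    have hq' : φ (z q).1 = some (z q).2 := by
      rcases hq with h | h
      · exact h.2
      · exfalso
        rw [he, h.2.2] at hmem
        exact hψ1 _ h.1 h.2.1 hmem
    rw [he, hq'] at hp'
    simp only [Option.some.injEq] at hp'
    exact Prod.ext he hp'.symm
  · intro x hx
    obtain ⟨y, hy, _⟩ := hφ' x hx
    obtain ⟨p, hp⟩ := hsurj (x, y) ((hZ _).mpr (Or.inl ⟨hx, hy⟩))
    exact ⟨p, by rw [hp]⟩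
  · intro p q hpq
    exact (hlt p q hpq).2.1
  · intro p q hpq he hmem
    apply (hlt p q hpq).2.2
    have hp := (hZ _).mp (hz1 p)
    have hq := (hZ _).mp (hz1 q)
    rcases hp with ⟨hp1, hp2⟩ | ⟨hp1, hp2, hp3⟩ <;> rcases hq with ⟨hq1, hq2⟩ | ⟨hq1, hq2, hq3⟩
    · refine Prod.ext ?_ he
      by_contra hne
      rcases lt_or_gt_of_ne hne with h | h
      · have := (hφ1 _ hp1 _ hq1 h _ _ hp2 hq2).2 (he ▸ hmem)
        rw [he] at this
        exact lt_irrefl _ this
      · have := (hφ1 _ hq1 _ hp1 h _ _ hq2 hp2).2 hmem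
        rw [he] at this
        exact lt_irrefl _ this
    · exfalso
      rw [he] at hp2
      exact hq2 _ hp1 hp2
    · exfalso
      rw [← he] at hq2
      exact hp2 _ hq1 hq2
    · refine Prod.ext ?_ he
      rw [hp3, hq3, he]
  · intro y hy
    by_cases hno : ∀ x ∈ X, φ x ≠ some y
    · obtain ⟨p, hp⟩ := hsurj (ψ y, y) ((hZ _).mpr (Or.inr ⟨hy, hno, rfl⟩))
      exact ⟨p, by rw [hp]⟩
    · push Not at hno
      obtain ⟨x, hx, hxy⟩ := hno
      obtain ⟨p, hp⟩ := hsurj (x, y) ((hZ _).mpr (Or.inl ⟨hx, hxy⟩))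
      exact ⟨p, by rw [hp]⟩
  · intro p
    rcases (hZ _).mp (hz1 p) with ⟨hp1, hp2⟩ | ⟨hp1, hp2, hp3⟩
    · obtain ⟨y, hy1, _, hy3⟩ := hφ' _ hp1
      rw [hp2] at hy1
      simp only [Option.some.injEq] at hy1
      rw [← hy1] at hy3
      exact hy3.le
    · have := hψ2 _ hp1 hp2
      rw [← hp3] at this
      exact this.le

end merge


/-! ### Formulas and types -/

/-- quantifier depth -/
def Form.depth {S : Type} : Form S → ℕ
  | .top => 0
  | .bot => 0
  | .letter _ _ => 0
  | .le _ _ => 0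
  | .lt _ _ => 0
  | .succ _ _ => 0
  | .nsucc _ _ => 0
  | .not φ => φ.depth
  | .and φ ψ => max φ.depth ψ.depth
  | .or φ ψ => max φ.depth ψ.depth
  | .ex _ φ => φ.depth + 1
  | .all _ φ => φ.depth + 1

variable {S : Type}

theorem sat_congr (w : Word S) (φ : Form S) : ∀ ν ν' : Var → ℕ, (∀ x ∈ φ.free, ν x = ν' x) →
    (Sat w ν φ ↔ Sat w ν' φ) := by
  induction φ with
  | top => intros; rfl
  | bot => intros; rfl
  | letter a x =>
    intro ν ν' h
    have := h x (by simp [Form.free])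
    simp only [Sat, this]
  | le x y =>
    intro ν ν' h
    have h1 := h x (by simp [Form.free])
    have h2 := h y (by simp [Form.free])
    simp only [Sat, h1, h2]
  | lt x y =>
    intro ν ν' h
    have h1 := h x (by simp [Form.free])
    have h2 := h y (by simp [Form.free])
    simp only [Sat, h1, h2]
  | succ x y =>
    intro ν ν' h
    have h1 := h x (by simp [Form.free])
    have h2 := h y (by simp [Form.free])
    simp only [Sat, h1, h2]
  | nsucc x y =>
    intro ν ν' h
    have h1 := h x (by simp [Form.free])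
    have h2 := h y (by simp [Form.free])
    simp only [Sat, h1, h2]
  | not φ ih =>
    intro ν ν' h
    simp only [Sat, ih ν ν' h]
  | and φ ψ ih1 ih2 =>
    intro ν ν' h
    simp only [Sat, ih1 ν ν' (fun x hx => h x (Or.inl hx)), ih2 ν ν' (fun x hx => h x (Or.inr hx))]
  | or φ ψ ih1 ih2 =>
    intro ν ν' h
    simp only [Sat, ih1 ν ν' (fun x hx => h x (Or.inl hx)), ih2 ν ν' (fun x hx => h x (Or.inr hx))]
  | ex x φ ih =>
    intro ν ν' h
    have key : ∀ i, Sat w (Function.update ν x i) φ ↔ Sat w (Function.update ν' x i) φ := by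
      intro i
      apply ih
      intro y hy
      by_cases hyx : y = x
      · subst hyx; simp
      · rw [Function.update_of_ne hyx, Function.update_of_ne hyx]
        exact h y ⟨hy, hyx⟩
    simp only [Sat, key]
  | all x φ ih =>
    intro ν ν' h
    have key : ∀ i, Sat w (Function.update ν x i) φ ↔ Sat w (Function.update ν' x i) φ := by
      intro i
      apply ih
      intro y hy
      by_cases hyx : y = x
      · subst hyx; simp
      · rw [Function.update_of_ne hyx, Function.update_of_ne hyx]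
        exact h y ⟨hy, hyx⟩
    simp only [Sat, key]

theorem holds_iff (w : Word S) {φ : Form S} (hφ : φ.IsSentence) (ν : Var → ℕ) :
    Holds w φ ↔ Sat w ν φ := by
  apply sat_congr
  intro x hx
  rw [hφ] at hx
  exact absurd hx (Set.notMem_empty x)

theorem ty_forth {A : Type} {k n m : ℕ} {u : Fin n → A} {v : Fin m → A} {i : Fin n} {j : Fin m}
    (h : ty (k + 1) u i = ty (k + 1) v j) : u i = v j ∧
      ((∀ i' < i, ∃ j' < j, ty k u i' = ty k v j') ∧ (∀ i' > i, ∃ j' > j, ty k u i' = ty k v j')) := by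
  have h' : (u i, {t | ∃ j, j < i ∧ ty k u j = t}, {t | ∃ j, i < j ∧ ty k u j = t}) =
    (v j, {t | ∃ i, i < j ∧ ty k v i = t}, {t | ∃ i, j < i ∧ ty k v i = t}) := h
  simp only [Prod.mk.injEq] at h'
  obtain ⟨h1, h2, h3⟩ := h'
  refine ⟨h1, ?_, ?_⟩
  · intro i' hi'
    have : ty k u i' ∈ {t | ∃ j, j < i ∧ ty k u j = t} := ⟨i', hi', rfl⟩
    rw [h2] at this
    obtain ⟨j', hj', he⟩ := this
    exact ⟨j', hj', he.symm⟩
  · intro i' hi'
    have : ty k u i' ∈ {t | ∃ j, i < j ∧ ty k u j = t} := ⟨i', hi', rfl⟩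
    rw [h3] at this
    obtain ⟨j', hj', he⟩ := this
    exact ⟨j', hj', he.symm⟩

theorem ty_letter {A : Type} {k n m : ℕ} {u : Fin n → A} {v : Fin m → A} {i : Fin n} {j : Fin m}
    (h : ty k u i = ty k v j) : u i = v j := by
  cases k with
  | zero => exact h
  | succ k => exact (ty_forth h).1

theorem ty_mono {A : Type} {n m : ℕ} {u : Fin n → A} {v : Fin m → A} {k : ℕ} :
    ∀ {i : Fin n} {j : Fin m}, ty (k + 1) u i = ty (k + 1) v j → ty k u i = ty k v j := by
  induction k with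
  | zero => intro i j h; exact (ty_forth h).1
  | succ k ih =>
    intro i j h
    obtain ⟨h1, h2, h3⟩ := ty_forth h
    obtain ⟨_, h4, h5⟩ := ty_forth h.symm
    show (_, _, _) = (_, _, _)
    simp only [Prod.mk.injEq]
    refine ⟨h1, ?_, ?_⟩
    · ext t
      constructor
      · rintro ⟨i', hi', rfl⟩
        obtain ⟨j', hj', he⟩ := h2 i' hi'
        exact ⟨j', hj', (ih he).symm⟩
      · rintro ⟨j', hj', rfl⟩
        obtain ⟨i', hi', he⟩ := h4 j' hj'
        exact ⟨i', hi', ih he.symm⟩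
    · ext t
      constructor
      · rintro ⟨i', hi', rfl⟩
        obtain ⟨j', hj', he⟩ := h3 i' hi'
        exact ⟨j', hj', (ih he).symm⟩
      · rintro ⟨j', hj', rfl⟩
        obtain ⟨i', hi', he⟩ := h5 j' hj'
        exact ⟨i', hi', ih he.symm⟩

/-- matching valuations -/
def Match (k : ℕ) (w w' : Word S) (ν ν' : Var → ℕ) : Prop :=
  (∀ b, ∃ (h : ν b < w.length) (h' : ν' b < w'.length),
    ty k w.get ⟨ν b, h⟩ = ty k w'.get ⟨ν' b, h'⟩) ∧
  ∀ a b, (ν a < ν b ↔ ν' a < ν' b)

theorem Match.symm {k : ℕ} {w w' : Word S} {ν ν' : Var → ℕ} (h : Match k w w' ν ν') :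
    Match k w' w ν' ν := by
  refine ⟨fun b => ?_, fun a b => (h.2 a b).symm⟩
  obtain ⟨h1, h2, h3⟩ := h.1 b
  exact ⟨h2, h1, h3.symm⟩

theorem Match.step {k : ℕ} {w w' : Word S} {ν ν' : Var → ℕ} (h : Match (k + 1) w w' ν ν') (x : Var)
    {i : ℕ} (hi : i < w.length) : ∃ i', i' < w'.length ∧
      Match k w w' (Function.update ν x i) (Function.update ν' x i') := by
  obtain ⟨h1, h2, h3⟩ := h.1 (!x)
  have hne : (!x) ≠ x := by cases x <;> simp
  have main : ∃ (i' : ℕ) (hi' : i' < w'.length), ty k w.get ⟨i, hi⟩ = ty k w'.get ⟨i', hi'⟩ ∧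
      (i < ν (!x) ↔ i' < ν' (!x)) ∧ (ν (!x) < i ↔ ν' (!x) < i') := by
    rcases lt_trichotomy i (ν (!x)) with hlt | heq | hgt
    · obtain ⟨j', hj', he⟩ := (ty_forth h3).2.1 ⟨i, hi⟩ hlt
      have hj'' : j'.1 < ν' (!x) := hj'
      exact ⟨j'.1, j'.2, he, by omega, by omega⟩
    · subst heq
      exact ⟨ν' (!x), h2, ty_mono h3, by omega, by omega⟩
    · obtain ⟨j', hj', he⟩ := (ty_forth h3).2.2 ⟨i, hi⟩ hgt
      have hj'' : ν' (!x) < j'.1 := hj'
      exact ⟨j'.1, j'.2, he, by omega, by omega⟩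
  obtain ⟨i', hi', he, ho1, ho2⟩ := main
  refine ⟨i', hi', ?_, ?_⟩
  · intro b
    by_cases hb : b = x
    · subst hb
      simp only [Function.update_self]
      exact ⟨hi, hi', he⟩
    · have hb' : b = !x := by cases b <;> cases x <;> simp_all
      rw [hb']
      simp only [Function.update_of_ne hne]
      exact ⟨h1, h2, ty_mono h3⟩
  · intro a b
    have hx : ∀ c : Var, c = x ∨ c = !x := by intro c; cases c <;> cases x <;> simp
    rcases hx a with rfl | rfl <;> rcases hx b with rfl | rfl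
    · simp
    · simp only [Function.update_self, Function.update_of_ne hne]
      exact ho1
    · simp only [Function.update_self, Function.update_of_ne hne]
      exact ho2
    · simp only [Function.update_of_ne hne]
      exact h.2 _ _

theorem sat_inv (φ : Form S) (hφ : φ.OnlyOrder) : ∀ k, φ.depth ≤ k → ∀ (w w' : Word S)
    (ν ν' : Var → ℕ), Match k w w' ν ν' → (Sat w ν φ ↔ Sat w' ν' φ) := by
  induction φ with
  | top => intros; rfl
  | bot => intros; rfl
  | letter a x =>
    intro k _ w w' ν ν' h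
    obtain ⟨h1, h2, h3⟩ := h.1 x
    have h4 : w[ν x] = w'[ν' x] := ty_letter h3
    constructor
    · rintro ⟨_, h5⟩; exact ⟨h2, h4 ▸ h5⟩
    · rintro ⟨_, h5⟩; exact ⟨h1, h4 ▸ h5⟩
  | le x y =>
    intro k _ w w' ν ν' h
    have := h.2 y x
    simp only [Sat]
    omega
  | lt x y =>
    intro k _ w w' ν ν' h
    exact h.2 x y
  | succ x y => exact absurd hφ id
  | nsucc x y => exact absurd hφ id
  | not φ ih =>
    intro k hk w w' ν ν' h
    simp only [Sat, ih hφ k hk w w' ν ν' h]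
  | and φ ψ ih1 ih2 =>
    intro k hk w w' ν ν' h
    simp only [Form.depth, max_le_iff] at hk
    simp only [Sat, ih1 hφ.1 k hk.1 w w' ν ν' h, ih2 hφ.2 k hk.2 w w' ν ν' h]
  | or φ ψ ih1 ih2 =>
    intro k hk w w' ν ν' h
    simp only [Form.depth, max_le_iff] at hk
    simp only [Sat, ih1 hφ.1 k hk.1 w w' ν ν' h, ih2 hφ.2 k hk.2 w w' ν ν' h]
  | ex x φ ih =>
    intro k hk w w' ν ν' h
    cases k with
    | zero => simp [Form.depth] at hk
    | succ k =>
      have hk' : φ.depth ≤ k := by simpa [Form.depth] using hk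
      constructor
      · rintro ⟨i, hi, hs⟩
        obtain ⟨i', hi', hm⟩ := h.step x hi
        exact ⟨i', hi', (ih hφ k hk' _ _ _ _ hm).mp hs⟩
      · rintro ⟨i', hi', hs⟩
        obtain ⟨i, hi, hm⟩ := h.symm.step x hi'
        exact ⟨i, hi, (ih hφ k hk' _ _ _ _ hm).mp hs⟩
  | all x φ ih =>
    intro k hk w w' ν ν' h
    cases k with
    | zero => simp [Form.depth] at hk
    | succ k =>
      have hk' : φ.depth ≤ k := by simpa [Form.depth] using hk
      constructor
      · intro hs i' hi'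
        obtain ⟨i, hi, hm⟩ := h.symm.step x hi'
        exact (ih hφ k hk' _ _ _ _ hm).mpr (hs i hi)
      · intro hs i hi
        obtain ⟨i', hi', hm⟩ := h.step x hi
        exact (ih hφ k hk' _ _ _ _ hm).mpr (hs i' hi')

/-- A sentence of depth at most `k` has the same value in two words with a common `k`-type. -/
theorem holds_inv {φ : Form S} (hs : φ.IsSentence) (ho : φ.OnlyOrder) {k : ℕ} (hk : φ.depth ≤ k)
    {w w' : Word S} (i : Fin w.length) (j : Fin w'.length) (h : ty k w.get i = ty k w'.get j) :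
    Holds w φ ↔ Holds w' φ := by
  rw [holds_iff w hs (fun _ => i.1), holds_iff w' hs (fun _ => j.1)]
  apply sat_inv φ ho k hk
  exact ⟨fun b => ⟨i.2, j.2, h⟩, fun a b => by simp⟩

theorem ty_cast {A : Type} {k n m : ℕ} (h : n = m) (u : Fin n → A) (v : Fin m → A)
    (huv : ∀ i, v (Fin.cast h i) = u i) (i : Fin n) : ty k v (Fin.cast h i) = ty k u i := by
  subst h
  have : v = u := by funext i; exact huv i
  subst this
  rfl

/-! ### Positive formulas for types -/

theorem exists_conj {ι : Type} [Finite ι] (I : Set ι) (χ : ι → Form S) (V : Set Var)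
    (h : ∀ i, (χ i).Positive ∧ (χ i).OnlyOrder ∧ (χ i).free ⊆ V) :
    ∃ ψ : Form S, ψ.Positive ∧ ψ.OnlyOrder ∧ ψ.free ⊆ V ∧
      ∀ w ν, Sat w ν ψ ↔ ∀ i ∈ I, Sat w ν (χ i) := by
  induction I, I.toFinite using Set.Finite.induction_on with
  | empty => exact ⟨.top, trivial, trivial, by simp [Form.free], by simp [Sat]⟩
  | @insert a s _ _ ih =>
    obtain ⟨ψ, h1, h2, h3, h4⟩ := ih
    refine ⟨.and (χ a) ψ, ⟨(h a).1, h1⟩, ⟨(h a).2.1, h2⟩, Set.union_subset (h a).2.2 h3, ?_⟩
    intro w ν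
    simp only [Sat, h4, Set.forall_mem_insert]

theorem exists_disj {ι : Type} [Finite ι] (I : Set ι) (χ : ι → Form S) (V : Set Var)
    (h : ∀ i, (χ i).Positive ∧ (χ i).OnlyOrder ∧ (χ i).free ⊆ V) :
    ∃ ψ : Form S, ψ.Positive ∧ ψ.OnlyOrder ∧ ψ.free ⊆ V ∧
      ∀ w ν, Sat w ν ψ ↔ ∃ i ∈ I, Sat w ν (χ i) := by
  induction I, I.toFinite using Set.Finite.induction_on with
  | empty => exact ⟨.bot, trivial, trivial, by simp [Form.free], by simp [Sat]⟩
  | @insert a s _ _ ih =>
    obtain ⟨ψ, h1, h2, h3, h4⟩ := ih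
    refine ⟨.or (χ a) ψ, ⟨(h a).1, h1⟩, ⟨(h a).2.1, h2⟩, Set.union_subset (h a).2.2 h3, ?_⟩
    intro w ν
    simp only [Sat, h4, Set.exists_mem_insert]

theorem exists_formula [Finite S] (k : ℕ) : ∀ (t : Ty (Set S) k) (b : Var),
    ∃ χ : Form S, χ.Positive ∧ χ.OnlyOrder ∧ χ.free ⊆ {b} ∧
      ∀ (w : Word S) (ν : Var → ℕ) (h : ν b < w.length),
        Sat w ν χ ↔ tle k t (ty k w.get ⟨ν b, h⟩) := by
  have hletter : ∀ (t : Set S) (b : Var), ∃ χ : Form S, χ.Positive ∧ χ.OnlyOrder ∧ χ.free ⊆ {b} ∧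
      ∀ (w : Word S) (ν : Var → ℕ) (h : ν b < w.length), Sat w ν χ ↔ t ≤ w.get ⟨ν b, h⟩ := by
    intro t b
    obtain ⟨ψ, h1, h2, h3, h4⟩ := exists_conj t (fun a => Form.letter a b) {b}
      (fun i => ⟨trivial, trivial, by simp [Form.free]⟩)
    refine ⟨ψ, h1, h2, h3, fun w ν h => ?_⟩
    rw [h4]
    constructor
    · intro h5 a ha
      obtain ⟨_, h6⟩ := h5 a ha
      exact h6
    · intro h5 a ha
      exact ⟨h, h5 ha⟩
  induction k with
  | zero => exact hletter
  | succ k ih =>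
    rintro ⟨a, P, F⟩ b
    obtain ⟨χa, ha1, ha2, ha3, ha4⟩ := hletter a b
    choose χ hχ1 hχ2 hχ3 hχ4 using ih
    have hne : b ≠ (!b) := by cases b <;> simp
    have hfree : ∀ s, (χ s (!b)).free \ {!b} = ∅ := by
      intro s
      rw [Set.sdiff_eq_empty]
      exact hχ3 s (!b)
    obtain ⟨p1, hp1, hp2, hp3, hp4⟩ := exists_conj P
      (fun s => Form.ex (!b) (.and (.lt (!b) b) (χ s (!b)))) {b} (fun s => ⟨⟨trivial, hχ1 s _⟩,
        ⟨trivial, hχ2 s _⟩, by
          rintro x ⟨hx, hx'⟩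
          rcases hx with hx | hx
          · rcases hx with hx | hx
            · exact absurd hx hx'
            · exact hx
          · exact absurd (hχ3 s _ hx) hx'⟩)
    obtain ⟨f1, hf1, hf2, hf3, hf4⟩ := exists_conj F
      (fun s => Form.ex (!b) (.and (.lt b (!b)) (χ s (!b)))) {b} (fun s => ⟨⟨trivial, hχ1 s _⟩,
        ⟨trivial, hχ2 s _⟩, by
          rintro x ⟨hx, hx'⟩
          rcases hx with hx | hx
          · rcases hx with hx | hx
            · exact hx
            · exact absurd hx hx'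
          · exact absurd (hχ3 s _ hx) hx'⟩)
    obtain ⟨p2, hp5, hp6, hp7, hp8⟩ := exists_disj P (fun s => χ s (!b)) {!b}
      (fun s => ⟨hχ1 s _, hχ2 s _, hχ3 s _⟩)
    obtain ⟨f2, hf5, hf6, hf7, hf8⟩ := exists_disj F (fun s => χ s (!b)) {!b}
      (fun s => ⟨hχ1 s _, hχ2 s _, hχ3 s _⟩)
    refine ⟨.and χa (.and (.and p1 (.all (!b) (.or (.le b (!b)) p2)))
      (.and f1 (.all (!b) (.or (.le (!b) b) f2)))), ⟨ha1, ⟨hp1, trivial, hp5⟩, ⟨hf1, trivial, hf5⟩⟩,
      ⟨ha2, ⟨hp2, trivial, hp6⟩, ⟨hf2, trivial, hf6⟩⟩, ?_, ?_⟩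
    · refine Set.union_subset ha3 (Set.union_subset (Set.union_subset hp3 ?_)
        (Set.union_subset hf3 ?_))
      · rintro x ⟨hx, hx'⟩
        rcases hx with hx | hx
        · rcases hx with hx | hx
          · exact hx
          · exact absurd hx hx'
        · exact absurd (hp7 hx) hx'
      · rintro x ⟨hx, hx'⟩
        rcases hx with hx | hx
        · rcases hx with hx | hx
          · exact absurd hx hx'
          · exact hx
        · exact absurd (hf7 hx) hx'
    · intro w ν h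
      have hupd : ∀ i, Function.update ν (!b) i b = ν b := fun i => Function.update_of_ne hne _ _
      have hval : ∀ s i (hi : i < w.length), Sat w (Function.update ν (!b) i) (χ s (!b)) ↔
          tle k s (ty k w.get ⟨i, hi⟩) := by
        intro s i hi
        have := hχ4 s (!b) w (Function.update ν (!b) i) (by simpa using hi)
        simpa using this
      have hL : Sat w ν p1 ↔ ∀ s ∈ P, ∃ p' ∈ {t | ∃ j, j < (⟨ν b, h⟩ : Fin w.length) ∧
          ty k w.get j = t}, tle k s p' := by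
        rw [hp4]
        refine forall_congr' fun s => forall_congr' fun _ => ?_
        simp only [Sat, Function.update_self, hupd]
        constructor
        · rintro ⟨i, hi, hlt, hs⟩
          exact ⟨_, ⟨⟨i, hi⟩, hlt, rfl⟩, (hval s i hi).mp hs⟩
        · rintro ⟨_, ⟨i, hlt, rfl⟩, hs⟩
          exact ⟨i.1, i.2, hlt, (hval s i.1 i.2).mpr hs⟩
      have hR : Sat w ν f1 ↔ ∀ s ∈ F, ∃ p' ∈ {t | ∃ j, (⟨ν b, h⟩ : Fin w.length) < j ∧
          ty k w.get j = t}, tle k s p' := by
        rw [hf4]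
        refine forall_congr' fun s => forall_congr' fun _ => ?_
        simp only [Sat, Function.update_self, hupd]
        constructor
        · rintro ⟨i, hi, hlt, hs⟩
          exact ⟨_, ⟨⟨i, hi⟩, hlt, rfl⟩, (hval s i hi).mp hs⟩
        · rintro ⟨_, ⟨i, hlt, rfl⟩, hs⟩
          exact ⟨i.1, i.2, hlt, (hval s i.1 i.2).mpr hs⟩
      have hL' : Sat w ν (.all (!b) (.or (.le b (!b)) p2)) ↔
          ∀ p' ∈ {t | ∃ j, j < (⟨ν b, h⟩ : Fin w.length) ∧ ty k w.get j = t}, ∃ s ∈ P, tle k s p' := by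
        simp only [Sat, Function.update_self, hupd, hp8]
        constructor
        · rintro hs _ ⟨i, hlt, rfl⟩
          rcases hs i.1 i.2 with h5 | ⟨s, hs1, hs2⟩
          · exact absurd hlt (not_lt.mpr h5)
          · exact ⟨s, hs1, (hval s i.1 i.2).mp hs2⟩
        · intro hs i hi
          by_cases hlt : i < ν b
          · right
            obtain ⟨s, hs1, hs2⟩ := hs _ ⟨⟨i, hi⟩, hlt, rfl⟩
            exact ⟨s, hs1, (hval s i hi).mpr hs2⟩
          · exact Or.inl (not_lt.mp hlt)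
      have hR' : Sat w ν (.all (!b) (.or (.le (!b) b) f2)) ↔
          ∀ p' ∈ {t | ∃ j, (⟨ν b, h⟩ : Fin w.length) < j ∧ ty k w.get j = t}, ∃ s ∈ F, tle k s p' := by
        simp only [Sat, Function.update_self, hupd, hf8]
        constructor
        · rintro hs _ ⟨i, hlt, rfl⟩
          rcases hs i.1 i.2 with h5 | ⟨s, hs1, hs2⟩
          · exact absurd hlt (not_lt.mpr h5)
          · exact ⟨s, hs1, (hval s i.1 i.2).mp hs2⟩
        · intro hs i hi
          by_cases hlt : ν b < i
          · right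
            obtain ⟨s, hs1, hs2⟩ := hs _ ⟨⟨i, hi⟩, hlt, rfl⟩
            exact ⟨s, hs1, (hval s i hi).mpr hs2⟩
          · exact Or.inl (not_lt.mp hlt)
      have e : Sat w ν (.and χa (.and (.and p1 (.all (!b) (.or (.le b (!b)) p2)))
          (.and f1 (.all (!b) (.or (.le (!b) b) f2))))) ↔
          (Sat w ν χa ∧ (Sat w ν p1 ∧ Sat w ν (.all (!b) (.or (.le b (!b)) p2))) ∧
            (Sat w ν f1 ∧ Sat w ν (.all (!b) (.or (.le (!b) b) f2)))) := Iff.rfl
      rw [e, ha4 w ν h, hL, hL', hR, hR']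
      rfl

theorem tle_refl {A : Type} [Preorder A] (k : ℕ) : ∀ t : Ty A k, tle k t t := by
  induction k with
  | zero => intro t; exact le_refl (show A from t)
  | succ k ih =>
    rintro ⟨a, P, F⟩
    exact ⟨le_refl a, ⟨fun p hp => ⟨p, hp, ih p⟩, fun p hp => ⟨p, hp, ih p⟩⟩,
      ⟨fun p hp => ⟨p, hp, ih p⟩, fun p hp => ⟨p, hp, ih p⟩⟩⟩

/-- A language closed under the positive preorder of some depth is positively definable. -/
theorem definable_of_closed [Finite S] (K : ℕ) (L : Set (Word S))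
    (hL : ∀ u ∈ L, ∀ v : Word S,
      EM (tle K) (Set.range (ty K u.get)) (Set.range (ty K v.get)) → v ∈ L) :
    FO2Pos .order L := by
  choose χ hχ1 hχ2 hχ3 hχ4 using exists_formula (S := S) K
  have hT : ∀ T : Set (Ty (Set S) K), ∃ ψ : Form S, (ψ.Positive ∧ ψ.OnlyOrder ∧ ψ.free ⊆ ∅) ∧
      ∀ w ν, Sat w ν ψ ↔ EM (tle K) T (Set.range (ty K w.get)) := by
    intro T
    obtain ⟨p1, h1, h2, h3, h4⟩ := exists_conj T (fun t => Form.ex false (χ t false)) ∅
      (fun t => ⟨hχ1 t _, hχ2 t _, by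
        rintro x ⟨hx, hx'⟩
        exact absurd (hχ3 t _ hx) hx'⟩)
    obtain ⟨p2, h5, h6, h7, h8⟩ := exists_disj T (fun t => χ t false) {false}
      (fun t => ⟨hχ1 t _, hχ2 t _, hχ3 t _⟩)
    have hval : ∀ (w : Word S) (ν : Var → ℕ) s i (hi : i < w.length),
        Sat w (Function.update ν false i) (χ s false) ↔ tle K s (ty K w.get ⟨i, hi⟩) := by
      intro w ν s i hi
      have := hχ4 s false w (Function.update ν false i) (by simpa using hi)
      simpa using this
    refine ⟨.and p1 (.all false p2), ⟨⟨h1, h5⟩, ⟨h2, h6⟩, Set.union_subset h3 (by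
        rintro x ⟨hx, hx'⟩
        exact absurd (h7 hx) hx')⟩, fun w ν => ?_⟩
    have e : Sat w ν (.and p1 (.all false p2)) ↔ (Sat w ν p1 ∧ ∀ i < w.length,
        Sat w (Function.update ν false i) p2) := Iff.rfl
    rw [e, h4]
    simp only [h8]
    constructor
    · rintro ⟨h9, h10⟩
      refine ⟨fun t ht => ?_, ?_⟩
      · obtain ⟨i, hi, hs⟩ := h9 t ht
        exact ⟨_, ⟨⟨i, hi⟩, rfl⟩, (hval w ν t i hi).mp hs⟩
      · rintro _ ⟨i, rfl⟩
        obtain ⟨s, hs1, hs2⟩ := h10 i.1 i.2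
        exact ⟨s, hs1, (hval w ν s i.1 i.2).mp hs2⟩
    · rintro ⟨h9, h10⟩
      refine ⟨fun t ht => ?_, fun i hi => ?_⟩
      · obtain ⟨_, ⟨i, rfl⟩, hs⟩ := h9 t ht
        exact ⟨i.1, i.2, (hval w ν t i.1 i.2).mpr hs⟩
      · obtain ⟨s, hs1, hs2⟩ := h10 _ ⟨⟨i, hi⟩, rfl⟩
        exact ⟨s, hs1, (hval w ν s i hi).mpr hs2⟩
  choose Ψ hΨ1 hΨ2 using hT
  obtain ⟨φ, h1, h2, h3, h4⟩ := exists_disj
    {T : Set (Ty (Set S) K) | ∃ u ∈ L, Set.range (ty K u.get) = T} Ψ ∅ hΨ1
  refine ⟨φ, Set.subset_empty_iff.mp h3, h2, h1, fun w => ?_⟩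
  unfold Holds
  rw [h4]
  constructor
  · intro hw
    refine ⟨_, ⟨w, hw, rfl⟩, ?_⟩
    rw [hΨ2]
    exact ⟨fun p hp => ⟨p, hp, tle_refl K p⟩, fun p hp => ⟨p, hp, tle_refl K p⟩⟩
  · rintro ⟨_, ⟨u, hu, rfl⟩, h⟩
    rw [hΨ2] at h
    exact hL u hu w h

/-- **First half**: over the order signature, monotone two-variable definable languages are
positively two-variable definable. -/
theorem order_case [Finite S] (L : Set (Word S)) (hmon : MonotoneLang L) (hdef : FO2 .order L) :
    FO2Pos .order L := by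
  obtain ⟨φ, hs, ho, hφ⟩ := hdef
  have ho' : φ.OnlyOrder := ho
  let k := φ.depth
  obtain ⟨N, hN⟩ := exists_marker_bound (Set S) k
  let K := (2 * N + 1) * (2 * N) + 1
  apply definable_of_closed K L
  intro u hu v huv
  have hX := hN _ u.get
  have hY := hN _ v.get
  have hK : (2 * (markers k u.get).card + 1) * (2 * (markers k v.get).card) < K := by
    have : (2 * (markers k u.get).card + 1) * (2 * (markers k v.get).card) ≤ (2 * N + 1) * (2 * N) :=
      Nat.mul_le_mul (by omega) (by omega)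
    omega
  have h1 : ∀ x, ∃ y, Pre K u.get v.get x y := by
    intro x
    obtain ⟨_, ⟨y, rfl⟩, h⟩ := huv.1 _ ⟨x, rfl⟩
    exact ⟨y, h⟩
  have h2 : ∀ y, ∃ x, Pre K u.get v.get x y := by
    intro y
    obtain ⟨_, ⟨x, rfl⟩, h⟩ := huv.2 _ ⟨y, rfl⟩
    exact ⟨x, h⟩
  obtain ⟨n', f, g, hf, hg, hle⟩ := merge u.get v.get (markers k u.get) (markers k v.get) hK h1 h2
  by_cases hlen : 0 < u.length
  · -- transfer along zone maps
    have transfer : ∀ (w : Word S) (h : Fin n' → Fin w.length), ZoneMap (markers k w.get) h →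
        0 < w.length → (w ∈ L ↔ List.ofFn (fun p => w.get (h p)) ∈ L) := by
      intro w h hz hw
      obtain ⟨m, _, hm, _⟩ := exists_first (le_refl k) w.get ⟨0, hw⟩
      obtain ⟨p, hp⟩ := hz.surj m hm
      rw [hφ, hφ]
      have e : (List.ofFn (fun p => w.get (h p))).length = n' := List.length_ofFn
      have e2 := ty_cast (k := k) e.symm (fun p => w.get (h p))
        (List.ofFn (fun p => w.get (h p))).get (fun i => by simp) p
      refine holds_inv hs ho' (le_refl k) (h p) (Fin.cast e.symm p) ?_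
      rw [e2, hz.ty_eq k (by omega) p]
    have hlen' : 0 < v.length := by
      obtain ⟨y, _⟩ := h1 ⟨0, hlen⟩
      exact lt_of_le_of_lt (Nat.zero_le _) y.2
    rw [transfer v g hg hlen']
    apply hmon _ ((transfer u f hf hlen).mp hu)
    unfold Word.Le
    rw [List.forall₂_iff_get]
    refine ⟨by simp, fun i h3 h4 => ?_⟩
    simp only [List.get_eq_getElem, List.getElem_ofFn]
    exact hle _
  · have hu0 : u = [] := List.length_eq_zero_iff.mp (by omega)
    have hv0 : v = [] := by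
      by_contra hne
      have : 0 < v.length := List.length_pos_iff.mpr hne
      obtain ⟨x, _⟩ := h2 ⟨0, this⟩
      exact hlen (lt_of_le_of_lt (Nat.zero_le _) x.2)
    rw [hv0, ← hu0]
    exact hu

end Pool.Agent.Lib.MP_eaaecb_lc
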