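import Pool.Agent.Lib.MP_eaaecb_lc.Defs

section

namespace Pool.Agent.Lib.MP_eaaecb_lc

/-! ## Semantic closure properties of two-variable definability -/

/-- The letter at position `i` (the empty set if there is no such position). -/
def lat {S : Type} (w : Word S) (i : ℕ) : Set S := w.getD i ∅

theorem mem_lat_iff {S : Type} (w : Word S) (i : ℕ) (a : S) :
    a ∈ lat w i ↔ ∃ h : i < w.length, a ∈ w[i] := by
  unfold lat
  by_cases h : i < w.length
  · simp [List.getD, h]
  · simp [List.getD, h]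

/-- `P` is defined by a formula with free variables in `V`. -/
def SDef {S : Type} (V : Set Var) (P : Word S → ℕ → ℕ → Prop) : Prop :=
  ∃ φ : Form S, φ.free ⊆ V ∧ ∀ w ν, P w (ν false) (ν true) ↔ Sat w ν φ

variable {S : Type}

theorem SDef.and {V : Set Var} {P Q : Word S → ℕ → ℕ → Prop} (h1 : SDef V P) (h2 : SDef V Q) :
    SDef V (fun w i j => P w i j ∧ Q w i j) := by
  obtain ⟨φ, f1, s1⟩ := h1
  obtain ⟨ψ, f2, s2⟩ := h2
  exact ⟨.and φ ψ, Set.union_subset f1 f2, fun w ν => and_congr (s1 w ν) (s2 w ν)⟩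

theorem SDef.or {V : Set Var} {P Q : Word S → ℕ → ℕ → Prop} (h1 : SDef V P) (h2 : SDef V Q) :
    SDef V (fun w i j => P w i j ∨ Q w i j) := by
  obtain ⟨φ, f1, s1⟩ := h1
  obtain ⟨ψ, f2, s2⟩ := h2
  exact ⟨.or φ ψ, Set.union_subset f1 f2, fun w ν => or_congr (s1 w ν) (s2 w ν)⟩

theorem SDef.not {V : Set Var} {P : Word S → ℕ → ℕ → Prop} (h1 : SDef V P) :
    SDef V (fun w i j => ¬ P w i j) := by
  obtain ⟨φ, f1, s1⟩ := h1
  exact ⟨.not φ, f1, fun w ν => not_congr (s1 w ν)⟩

theorem SDef.const (V : Set Var) (p : Prop) : SDef V (fun (_ : Word S) _ _ => p) := by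
  by_cases h : p
  · exact ⟨.top, Set.empty_subset _, fun w ν => ⟨fun _ => trivial, fun _ => h⟩⟩
  · exact ⟨.bot, Set.empty_subset _, fun w ν => ⟨fun q => h q, fun q => q.elim⟩⟩

theorem SDef.congr {V : Set Var} {P Q : Word S → ℕ → ℕ → Prop} (h1 : SDef V P)
    (h : ∀ w i j, P w i j ↔ Q w i j) : SDef V Q := by
  obtain ⟨φ, f1, s1⟩ := h1
  exact ⟨φ, f1, fun w ν => (h w _ _).symm.trans (s1 w ν)⟩

theorem SDef.mono {V V' : Set Var} {P : Word S → ℕ → ℕ → Prop} (h1 : SDef V P)
    (h : V ⊆ V') : SDef V' P := by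
  obtain ⟨φ, f1, s1⟩ := h1
  exact ⟨φ, f1.trans h, s1⟩

theorem SDef.exF {P : Word S → ℕ → ℕ → Prop} (V : Set Var) (h1 : SDef V P) :
    SDef (V \ {false}) (fun w _ j => ∃ i < w.length, P w i j) := by
  obtain ⟨φ, f1, s1⟩ := h1
  refine ⟨.ex false φ, Set.sdiff_subset_sdiff_left f1, fun w ν => ?_⟩
  refine exists_congr fun i => and_congr_right fun _ => ?_
  rw [← s1]
  simp

theorem SDef.exT {P : Word S → ℕ → ℕ → Prop} (V : Set Var) (h1 : SDef V P) :
    SDef (V \ {true}) (fun w i _ => ∃ j < w.length, P w i j) := by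
  obtain ⟨φ, f1, s1⟩ := h1
  refine ⟨.ex true φ, Set.sdiff_subset_sdiff_left f1, fun w ν => ?_⟩
  refine exists_congr fun i => and_congr_right fun _ => ?_
  rw [← s1]
  simp

theorem SDef.allF {P : Word S → ℕ → ℕ → Prop} (V : Set Var) (h1 : SDef V P) :
    SDef (V \ {false}) (fun w _ j => ∀ i < w.length, P w i j) := by
  obtain ⟨φ, f1, s1⟩ := h1
  refine ⟨.all false φ, Set.sdiff_subset_sdiff_left f1, fun w ν => ?_⟩
  refine forall_congr' fun i => forall_congr' fun _ => ?_
  rw [← s1]
  simp

theorem SDef.allT {P : Word S → ℕ → ℕ → Prop} (V : Set Var) (h1 : SDef V P) :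
    SDef (V \ {true}) (fun w i _ => ∀ j < w.length, P w i j) := by
  obtain ⟨φ, f1, s1⟩ := h1
  refine ⟨.all true φ, Set.sdiff_subset_sdiff_left f1, fun w ν => ?_⟩
  refine forall_congr' fun i => forall_congr' fun _ => ?_
  rw [← s1]
  simp

theorem SDef.existsList {V : Set Var} {ι : Type} (l : List ι) {P : ι → Word S → ℕ → ℕ → Prop}
    (h : ∀ k, SDef V (P k)) : SDef V (fun w i j => ∃ k ∈ l, P k w i j) := by
  induction l with
  | nil => exact (SDef.const V False).congr (by simp)
  | cons a l ih => exact ((h a).or ih).congr (by simp)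

theorem SDef.existsFin {V : Set Var} {ι : Type} [Finite ι] {P : ι → Word S → ℕ → ℕ → Prop}
    (h : ∀ k, SDef V (P k)) : SDef V (fun w i j => ∃ k, P k w i j) := by
  classical
  cases nonempty_fintype ι
  exact (SDef.existsList (Finset.univ : Finset ι).toList h).congr (by simp)

theorem SDef.forallFin {V : Set Var} {ι : Type} [Finite ι] {P : ι → Word S → ℕ → ℕ → Prop}
    (h : ∀ k, SDef V (P k)) : SDef V (fun w i j => ∀ k, P k w i j) :=
  ((SDef.existsFin fun k => (h k).not).not).congr (by simp)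

theorem SDef.letF (a : S) : SDef {false} (fun w i _ => a ∈ lat w i) :=
  ⟨.letter a false, subset_rfl, fun w ν => mem_lat_iff w _ a⟩

theorem SDef.letT (a : S) : SDef {true} (fun w _ j => a ∈ lat w j) :=
  ⟨.letter a true, subset_rfl, fun w ν => mem_lat_iff w _ a⟩

theorem SDef.iff {V : Set Var} {P Q : Word S → ℕ → ℕ → Prop} (h1 : SDef V P) (h2 : SDef V Q) :
    SDef V (fun w i j => P w i j ↔ Q w i j) :=
  ((h1.and h2).or (h1.not.and h2.not)).congr (by intro w i j; tauto)

theorem SDef.isF [Finite S] (X : Set S) : SDef {false} (fun w i _ => lat w i = X) :=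
  (SDef.forallFin fun a => (SDef.letF a).iff (SDef.const _ (a ∈ X))).congr
    (by intro w i j; exact Set.ext_iff.symm)

theorem SDef.isT [Finite S] (X : Set S) : SDef {true} (fun w _ j => lat w j = X) :=
  (SDef.forallFin fun a => (SDef.letT a).iff (SDef.const _ (a ∈ X))).congr
    (by intro w i j; exact Set.ext_iff.symm)

theorem SDef.relF [Finite S] (R : Set S → Prop) : SDef {false} (fun w i _ => R (lat w i)) :=
  (SDef.existsFin fun X : Set S => (SDef.isF X).and (SDef.const _ (R X))).congr
    (by intro w i j; simp)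

theorem SDef.relFT [Finite S] (R : Set S → Set S → Prop) :
    SDef {false, true} (fun w i j => R (lat w i) (lat w j)) :=
  (SDef.existsFin fun X : Set S => SDef.existsFin fun Y : Set S =>
    (((SDef.isF X).mono (by simp)).and ((SDef.isT Y).mono (by simp))).and
      (SDef.const _ (R X Y))).congr
    (by intro w i j; simp)

theorem SDef.leFT : SDef (S := S) {false, true} (fun _ i j => i ≤ j) :=
  ⟨.le false true, subset_rfl, fun w ν => Iff.rfl⟩

theorem SDef.leTF : SDef (S := S) {false, true} (fun _ i j => j ≤ i) :=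
  ⟨.le true false, by intro b; cases b <;> simp [Form.free], fun w ν => Iff.rfl⟩

theorem SDef.succFT : SDef (S := S) {false, true} (fun _ i j => j = i + 1) :=
  ⟨.succ false true, subset_rfl, fun w ν => Iff.rfl⟩

theorem SDef.FO2 {L : Set (Word S)} {P : Word S → ℕ → ℕ → Prop} (h : SDef ∅ P)
    (hL : ∀ w, w ∈ L ↔ P w 0 0) : FO2 .orderSucc L := by
  obtain ⟨φ, f, s⟩ := h
  refine ⟨φ, Set.subset_empty_iff.mp f, trivial, fun w => ?_⟩
  rw [hL]
  exact s w (fun _ => 0)

end Pool.Agent.Lib.MP_eaaecb_lc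
end

section

namespace Pool.Agent.Lib.MP_eaaecb_lc

/-! ## The language -/

/-- Consistency of two consecutive letters. -/
def Cns (X Y : Set (ZMod 3)) : Prop := ∃ p ∈ X, p + 1 ∈ Y

/-- A break: two consecutive two-element letters that do not match. -/
def DB (X Y : Set (ZMod 3)) : Prop := ∃ x y, X = {x, x + 1} ∧ Y = {y, y + 1} ∧ y ≠ x + 1

/-- The first event. -/
def U1 (X Y : Set (ZMod 3)) : Prop := ∃ q, X = {q} ∧ Y = {q, q + 1}

/-- The second event. -/
def U2 (X Y : Set (ZMod 3)) : Prop := ∃ q, X = {q, q + 1} ∧ Y = {q + 2}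

/-- Some letter is everything. -/
def HasTop (w : Word (ZMod 3)) : Prop := ∃ i < w.length, lat w i = Set.univ

/-- Some break. -/
def HasBreak (w : Word (ZMod 3)) : Prop := ∃ i < w.length, ∃ j < w.length, j = i + 1 ∧
  DB (lat w i) (lat w j)

/-- Consistent words. -/
def Consistent (w : Word (ZMod 3)) : Prop := ∀ i < w.length, ∀ j < w.length, j = i + 1 →
  Cns (lat w i) (lat w j)

/-- Bad words. -/
def Bad (w : Word (ZMod 3)) : Prop := ∃ (i : ℕ) (z : ZMod 3), i + 1 < w.length ∧ lat w 0 = {z} ∧
  (∀ p ≤ i, lat w p ⊆ {z + (p : ZMod 3), z + (p : ZMod 3) + 1}) ∧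
  lat w (i + 1) = {z + (i : ZMod 3) + 2}

/-- The language. -/
def theL : Set (Word (ZMod 3)) := {w | HasTop w ∨ HasBreak w ∨ (Consistent w ∧ ¬ Bad w)}

theorem lat_subset_of_le {S : Type} {u v : Word S} (h : Word.Le u v) (i : ℕ) :
    lat u i ⊆ lat v i := by
  induction h generalizing i with
  | nil => exact subset_rfl
  | cons h1 _ ih =>
    cases i with
    | zero => simpa [lat] using h1
    | succ i => simpa [lat] using ih i

theorem double_of_subset {X Y : Set (ZMod 3)} (h : X ⊆ Y) (hY : Y ≠ Set.univ) {x : ZMod 3}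
    (hX : X = {x, x + 1}) : Y = X := by
  subst hX
  refine subset_antisymm ?_ h
  intro y hy
  by_contra hny
  apply hY
  have hx : x ∈ Y := h (by simp)
  have hx1 : x + 1 ∈ Y := h (by simp)
  have h1 : y ≠ x ∧ y ≠ x + 1 := by
    refine ⟨fun e => hny (by simp [e]), fun e => hny (by simp [e])⟩
  have key : ∀ x y : ZMod 3, y ≠ x ∧ y ≠ x + 1 → ∀ z, z = x ∨ z = x + 1 ∨ z = y := by decide
  ext z
  rcases key x y h1 z with e | e | e <;> subst e <;> simp [hx, hx1, hy]

theorem theL_monotone : MonotoneLang theL := by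
  intro u hu v huv
  have hlen : u.length = v.length := huv.length_eq
  have hs := lat_subset_of_le huv
  by_contra hv
  have hv' : ¬ HasTop v ∧ ¬ HasBreak v ∧ (Consistent v → Bad v) := by
    refine ⟨fun h => hv (Or.inl h), fun h => hv (Or.inr (Or.inl h)), fun h => ?_⟩
    by_contra hb
    exact hv (Or.inr (Or.inr ⟨h, hb⟩))
  obtain ⟨hT, hB, hC⟩ := hv'
  have hT' : ∀ i < v.length, lat v i ≠ Set.univ := fun i hi e => hT ⟨i, hi, e⟩
  rcases hu with hu | hu | ⟨hu, hub⟩
  · obtain ⟨i, hi, e⟩ := hu
    refine hT' i (hlen ▸ hi) ?_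
    have := hs i
    rw [e] at this
    exact Set.univ_subset_iff.mp this
  · obtain ⟨i, hi, j, hj, e, x, y, ex, ey, hne⟩ := hu
    refine hB ⟨i, hlen ▸ hi, j, hlen ▸ hj, e, x, y, ?_, ?_, hne⟩
    · rw [double_of_subset (hs i) (hT' i (hlen ▸ hi)) ex, ex]
    · rw [double_of_subset (hs j) (hT' j (hlen ▸ hj)) ey, ey]
  · have hcv : Consistent v := by
      intro i hi j hj e
      obtain ⟨p, hp, hp'⟩ := hu i (hlen ▸ hi) j (hlen ▸ hj) e
      exact ⟨p, hs i hp, hs j hp'⟩
    obtain ⟨i, z, hi, h0, hp, hl⟩ := hC hcv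
    rw [← hlen] at hi
    apply hub
    refine ⟨i, z, hi, ?_, fun p hpi => (hs p).trans (hp p hpi), ?_⟩
    · obtain ⟨p, hp, -⟩ := hu 0 (by omega) 1 (by omega) rfl
      have := hs 0
      rw [h0] at this
      exact (Set.subset_singleton_iff_eq.mp this).resolve_left (fun e => by simp [e] at hp)
    · obtain ⟨p, -, hp⟩ := hu i (by omega) (i + 1) (by omega) rfl
      have := hs (i + 1)
      rw [hl] at this
      exact (Set.subset_singleton_iff_eq.mp this).resolve_left (fun e => by simp [e] at hp)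

/-- The letters. -/
theorem letter_cases (X : Set (ZMod 3)) :
    X = ∅ ∨ X = Set.univ ∨ (∃ q, X = {q}) ∨ (∃ q, X = {q, q + 1}) := by
  have e3 : ∀ x : ZMod 3, x = 0 ∨ x = 1 ∨ x = 2 := by decide
  by_cases h0 : (0 : ZMod 3) ∈ X <;> by_cases h1 : (1 : ZMod 3) ∈ X <;>
    by_cases h2 : (2 : ZMod 3) ∈ X
  · right; left
    ext x; rcases e3 x with e | e | e <;> subst e <;> simp [h0, h1, h2]
  · right; right; right; refine ⟨0, ?_⟩
    ext x; rcases e3 x with e | e | e <;> subst e <;> simp [h0, h1, h2] <;> decide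
  · right; right; right; refine ⟨2, ?_⟩
    ext x; rcases e3 x with e | e | e <;> subst e <;> simp [h0, h1, h2] <;> decide
  · right; right; left; refine ⟨0, ?_⟩
    ext x; rcases e3 x with e | e | e <;> subst e <;> simp [h0, h1, h2] <;> decide
  · right; right; right; refine ⟨1, ?_⟩
    ext x; rcases e3 x with e | e | e <;> subst e <;> simp [h0, h1, h2] <;> decide
  · right; right; left; refine ⟨1, ?_⟩
    ext x; rcases e3 x with e | e | e <;> subst e <;> simp [h0, h1, h2] <;> decide
  · right; right; left; refine ⟨2, ?_⟩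
    ext x; rcases e3 x with e | e | e <;> subst e <;> simp [h0, h1, h2] <;> decide
  · left
    ext x; rcases e3 x with e | e | e <;> subst e <;> simp [h0, h1, h2]

theorem step_single {q : ZMod 3} {Y : Set (ZMod 3)} (h : Cns {q} Y) (hY : Y ≠ Set.univ) :
    Y = {q + 1} ∨ Y = {q + 1, q + 1 + 1} ∨ Y = {q, q + 1} := by
  obtain ⟨p, hp, h1⟩ := h
  rw [Set.mem_singleton_iff] at hp
  subst hp
  rcases letter_cases Y with e | e | ⟨r, e⟩ | ⟨r, e⟩
  · simp [e] at h1
  · exact absurd e hY
  · rw [e, Set.mem_singleton_iff] at h1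
    left; rw [e, h1]
  · rw [e] at h1
    simp only [Set.mem_insert_iff, Set.mem_singleton_iff] at h1
    rcases h1 with h1 | h1
    · right; left; rw [e, h1]
    · right; right; rw [e, add_right_cancel h1]

theorem step_double {q : ZMod 3} {Y : Set (ZMod 3)} (h : Cns {q, q + 1} Y) (hY : Y ≠ Set.univ)
    (hD : ¬ DB {q, q + 1} Y) :
    Y = {q + 1} ∨ Y = {q + 2} ∨ Y = {q + 1, q + 1 + 1} := by
  obtain ⟨p, hp, h1⟩ := h
  simp only [Set.mem_insert_iff, Set.mem_singleton_iff] at hp
  rcases letter_cases Y with e | e | ⟨r, e⟩ | ⟨r, e⟩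
  · simp [e] at h1
  · exact absurd e hY
  · rw [e, Set.mem_singleton_iff] at h1
    rcases hp with hp | hp
    · left; rw [e, ← h1, hp]
    · right; left; rw [e, ← h1, hp]; congr 1; ring
  · right; right
    by_cases hr : r = q + 1
    · rw [e, hr]
    · exact absurd ⟨q, r, rfl, e, hr⟩ hD

/-- There is a second event without an earlier first event. -/
def Ev (w : Word (ZMod 3)) : Prop := ∃ x, x + 1 < w.length ∧ U2 (lat w x) (lat w (x + 1)) ∧
  ∀ y, y + 1 ≤ x → ¬ U1 (lat w y) (lat w (y + 1))

theorem pair_inj {x y : ZMod 3} (h : ({x, x + 1} : Set (ZMod 3)) = {y, y + 1}) : x = y := by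
  have h1 : x ∈ ({y, y + 1} : Set (ZMod 3)) := by rw [← h]; simp
  have h2 : x + 1 ∈ ({y, y + 1} : Set (ZMod 3)) := by rw [← h]; simp
  simp only [Set.mem_insert_iff, Set.mem_singleton_iff] at h1 h2
  revert h1 h2
  revert x y
  have : ∀ x y : ZMod 3, (x = y ∨ x = y + 1) → (x + 1 = y ∨ x + 1 = y + 1) → x = y := by decide
  intro x y _ h1 h2
  exact this x y h1 h2

theorem pair_ne_singleton {x y : ZMod 3} : ({x, x + 1} : Set (ZMod 3)) ≠ {y} := by
  intro h
  have h1 : x ∈ ({y} : Set (ZMod 3)) := by rw [← h]; simp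
  have h2 : x + 1 ∈ ({y} : Set (ZMod 3)) := by rw [← h]; simp
  rw [Set.mem_singleton_iff] at h1 h2
  rw [h1] at h2
  have : ∀ y : ZMod 3, y + 1 ≠ y := by decide
  exact this y h2

theorem bad_iff {w : Word (ZMod 3)} (hT : ¬ HasTop w) (hB : ¬ HasBreak w) (hC : Consistent w) :
    Bad w ↔ (∃ z, lat w 0 = {z}) ∧ Ev w := by
  have hT' : ∀ i < w.length, lat w i ≠ Set.univ := fun i hi e => hT ⟨i, hi, e⟩
  have hB' : ∀ i, i + 1 < w.length → ¬ DB (lat w i) (lat w (i + 1)) :=
    fun i hi e => hB ⟨i, by omega, i + 1, hi, rfl, e⟩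
  have hC' : ∀ i, i + 1 < w.length → Cns (lat w i) (lat w (i + 1)) :=
    fun i hi => hC i (by omega) (i + 1) hi rfl
  constructor
  · rintro ⟨i, z, hi, h0, hp, hl⟩
    refine ⟨⟨z, h0⟩, ?_⟩
    -- smallest upper singleton
    have hex : ∃ j, j + 1 < w.length ∧ j ≤ i ∧ lat w (j + 1) = {z + (j : ZMod 3) + 2} :=
      ⟨i, hi, le_rfl, hl⟩
    classical
    obtain ⟨hj1, hj2, hj3⟩ := Nat.find_spec hex
    have hmin := fun m (hm : m < Nat.find hex) => Nat.find_min hex hm
    generalize Nat.find hex = j at hj1 hj2 hj3 hmin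
    -- type of letters up to `j`
    have htype : ∀ p ≤ j, lat w p = {z + (p : ZMod 3)} ∨
        lat w p = {z + (p : ZMod 3), z + (p : ZMod 3) + 1} := by
      intro p hpj
      have hsub := hp p (by omega)
      rcases letter_cases (lat w p) with e | e | ⟨r, e⟩ | ⟨r, e⟩
      · exfalso
        obtain ⟨q, hq, -⟩ := hC' p (by omega)
        simp [e] at hq
      · exact absurd e (hT' p (by omega))
      · rw [e] at hsub ⊢
        simp only [Set.singleton_subset_iff, Set.mem_insert_iff, Set.mem_singleton_iff] at hsub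
        rcases hsub with hr | hr
        · left; rw [hr]
        · exfalso
          cases p with
          | zero =>
            rw [h0] at e
            have : z = r := by simpa using e
            rw [← this] at hr
            simp at hr
          | succ m =>
            refine hmin m (by omega) ⟨by omega, by omega, ?_⟩
            rw [e, hr]
            push_cast
            congr 1; ring
      · right
        rw [e] at hsub ⊢
        have h1 : r ∈ ({z + (p : ZMod 3), z + (p : ZMod 3) + 1} : Set (ZMod 3)) := hsub (by simp)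
        have h2 : r + 1 ∈ ({z + (p : ZMod 3), z + (p : ZMod 3) + 1} : Set (ZMod 3)) :=
          hsub (by simp)
        simp only [Set.mem_insert_iff, Set.mem_singleton_iff] at h1 h2
        have key : ∀ r t : ZMod 3, (r = t ∨ r = t + 1) → (r + 1 = t ∨ r + 1 = t + 1) → r = t := by
          decide
        rw [key _ _ h1 h2]
    refine ⟨j, hj1, ?_, ?_⟩
    · rcases htype j le_rfl with e | e
      · exfalso
        obtain ⟨p, hp1, hp2⟩ := hC' j hj1
        rw [e, Set.mem_singleton_iff] at hp1
        rw [hj3, Set.mem_singleton_iff, hp1] at hp2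
        have : ∀ t : ZMod 3, t + 1 ≠ t + 2 := by decide
        exact this _ hp2
      · exact ⟨_, e, hj3⟩
    · rintro y hy ⟨q, e1, e2⟩
      have hq : q = z + (y : ZMod 3) := by
        rcases htype y (by omega) with e | e
        · rw [e] at e1; simpa using e1.symm
        · rw [e] at e1; exact absurd e1 pair_ne_singleton
      rcases htype (y + 1) hy with e | e
      · rw [e] at e2
        exact absurd e2.symm pair_ne_singleton
      · rw [e] at e2
        have := pair_inj e2
        rw [hq] at this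
        push_cast at this
        have key : ∀ z y : ZMod 3, z + (y + 1) ≠ z + y := by decide
        exact key _ _ this
  · rintro ⟨⟨z, h0⟩, hx⟩
    classical
    obtain ⟨hx1, hx2, hx3⟩ := Nat.find_spec hx
    have hmin := fun m (hm : m < Nat.find hx) => Nat.find_min hx hm
    generalize Nat.find hx = x at hx1 hx2 hx3 hmin
    have htype : ∀ p ≤ x, lat w p = {z + (p : ZMod 3)} ∨
        lat w p = {z + (p : ZMod 3), z + (p : ZMod 3) + 1} := by
      intro p
      induction p with
      | zero => intro _; left; rw [h0]; simp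
      | succ p ih =>
        intro hp
        rcases ih (by omega) with e | e
        · have hc := hC' p (by omega)
          rw [e] at hc
          rcases step_single hc (hT' _ (by omega)) with e' | e' | e'
          · left; rw [e']; push_cast; congr 1; ring
          · right; rw [e']; push_cast; rw [add_assoc z (p : ZMod 3) 1]
          · exact absurd ⟨_, e, e'⟩ (hx3 p hp)
        · have hc := hC' p (by omega)
          have hb := hB' p (by omega)
          rw [e] at hc hb
          rcases step_double hc (hT' _ (by omega)) hb with e' | e' | e'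
          · left; rw [e']; push_cast; congr 1; ring
          · exfalso
            exact hmin p (by omega) ⟨by omega, ⟨_, e, e'⟩, fun y hy => hx3 y (by omega)⟩
          · right; rw [e']; push_cast; rw [add_assoc z (p : ZMod 3) 1]
    obtain ⟨q, e1, e2⟩ := hx2
    have hq : q = z + (x : ZMod 3) := by
      rcases htype x le_rfl with e | e
      · rw [e] at e1; exact absurd e1.symm pair_ne_singleton
      · rw [e] at e1; exact (pair_inj e1).symm
    refine ⟨x, z, hx1, h0, fun p hp => ?_, by rw [e2, hq]⟩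
    rcases htype p hp with e | e
    · rw [e]; simp
    · rw [e]

/-- The two-variable description. -/
def Desc (w : Word (ZMod 3)) : Prop :=
  (∃ i < w.length, lat w i = Set.univ) ∨
  (∃ i < w.length, ∃ j < w.length, j = i + 1 ∧ DB (lat w i) (lat w j)) ∨
  ((∀ i < w.length, ∀ j < w.length, ¬ j = i + 1 ∨ Cns (lat w i) (lat w j)) ∧
    ((∃ i < w.length, (∀ j < w.length, i ≤ j) ∧ ¬ ∃ z, lat w i = {z}) ∨
      (∀ i < w.length, ¬ (∃ j < w.length, j = i + 1 ∧ U2 (lat w i) (lat w j)) ∨
        (∃ j < w.length, j ≤ i ∧ ∃ k < w.length, j = k + 1 ∧ U1 (lat w k) (lat w j)))))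

theorem desc_iff (w : Word (ZMod 3)) : w ∈ theL ↔ Desc w := by
  unfold Desc theL
  rw [Set.mem_ofPred_eq]
  by_cases hT : HasTop w
  · exact ⟨fun _ => Or.inl hT, fun _ => Or.inl hT⟩
  refine or_congr Iff.rfl ?_
  by_cases hB : HasBreak w
  · exact ⟨fun _ => Or.inl hB, fun _ => Or.inl hB⟩
  refine or_congr Iff.rfl ?_
  by_cases hC : Consistent w
  · have hC2 : ∀ i < w.length, ∀ j < w.length, ¬ j = i + 1 ∨ Cns (lat w i) (lat w j) := by
      intro i hi j hj
      by_cases e : j = i + 1
      · exact Or.inr (hC i hi j hj e)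
      · exact Or.inl e
    rw [and_iff_right hC, and_iff_right hC2, bad_iff hT hB hC, not_and_or]
    constructor
    · rintro (h | h)
      · by_cases hlen : 0 < w.length
        · left
          exact ⟨0, hlen, fun j _ => Nat.zero_le j, h⟩
        · right
          intro i hi
          omega
      · right
        intro i hi
        by_contra hcon
        push Not at hcon
        obtain ⟨⟨j, hj, e, hu⟩, hno⟩ := hcon
        subst e
        refine h ⟨i, hj, hu, fun y hy hu1 => ?_⟩
        exact hno (y + 1) (by omega) hy y (by omega) rfl hu1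
    · rintro (⟨i, hi, hmin, h⟩ | h)
      · left
        have : i = 0 := by
          have := hmin 0 (by omega)
          omega
        rw [← this]; exact h
      · right
        rintro ⟨x, hx, hu, hno⟩
        rcases h x (by omega) with h1 | ⟨j, hj, hjx, k, hk, e, hu1⟩
        · exact h1 ⟨x + 1, hx, rfl, hu⟩
        · subst e
          exact hno k hjx hu1
  · constructor
    · rintro ⟨h, -⟩; exact absurd h hC
    · rintro ⟨h, -⟩
      exfalso
      apply hC
      intro i hi j hj e
      exact (h i hi j hj).resolve_left (fun h => h e)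

theorem theL_FO2 : FO2 .orderSucc theL := by
  refine SDef.FO2 (P := fun w _ _ => Desc w) ?_ desc_iff
  have hA : SDef ∅ (fun (w : Word (ZMod 3)) _ _ => ∃ i < w.length, lat w i = Set.univ) :=
    (SDef.exF {false} (SDef.isF Set.univ)).mono (by simp)
  have hB : SDef ∅ (fun (w : Word (ZMod 3)) _ _ =>
      ∃ i < w.length, ∃ j < w.length, j = i + 1 ∧ DB (lat w i) (lat w j)) :=
    (SDef.exF _ (SDef.exT {false, true} (SDef.succFT.and (SDef.relFT DB)))).mono
      (by intro b; cases b <;> simp)
  have hC : SDef ∅ (fun (w : Word (ZMod 3)) _ _ =>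
      ∀ i < w.length, ∀ j < w.length, ¬ j = i + 1 ∨ Cns (lat w i) (lat w j)) :=
    (SDef.allF _ (SDef.allT {false, true} (SDef.succFT.not.or (SDef.relFT Cns)))).mono
      (by intro b; cases b <;> simp)
  have hD : SDef ∅ (fun (w : Word (ZMod 3)) _ _ =>
      ∃ i < w.length, (∀ j < w.length, i ≤ j) ∧ ¬ ∃ z, lat w i = {z}) :=
    (SDef.exF {false} (((SDef.allT {false, true} SDef.leFT).mono
      (by intro b; cases b <;> simp)).and
        (SDef.relF (fun X => ¬ ∃ z, X = {z})))).mono (by simp)
  have hE1 : SDef {false} (fun (w : Word (ZMod 3)) i _ =>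
      ∃ j < w.length, j = i + 1 ∧ U2 (lat w i) (lat w j)) :=
    (SDef.exT {false, true} (SDef.succFT.and (SDef.relFT U2))).mono
      (by intro b; cases b <;> simp)
  have hE2 : SDef {true} (fun (w : Word (ZMod 3)) _ j =>
      ∃ k < w.length, j = k + 1 ∧ U1 (lat w k) (lat w j)) :=
    (SDef.exF {false, true} (SDef.succFT.and (SDef.relFT U1))).mono
      (by intro b; cases b <;> simp)
  have hE3 : SDef {false} (fun (w : Word (ZMod 3)) i _ =>
      ∃ j < w.length, j ≤ i ∧ ∃ k < w.length, j = k + 1 ∧ U1 (lat w k) (lat w j)) :=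
    (SDef.exT {false, true} (SDef.leTF.and (hE2.mono (by simp)))).mono
      (by intro b; cases b <;> simp)
  have hE : SDef ∅ (fun (w : Word (ZMod 3)) _ _ =>
      ∀ i < w.length, ¬ (∃ j < w.length, j = i + 1 ∧ U2 (lat w i) (lat w j)) ∨
        (∃ j < w.length, j ≤ i ∧ ∃ k < w.length, j = k + 1 ∧ U1 (lat w k) (lat w j))) :=
    (SDef.allF {false} (hE1.not.or hE3)).mono (by simp)
  exact hA.or (hB.or (hC.and (hD.or hE)))

/-! ## The game -/

/-- The quantifier depth. -/
def Form.qd {S : Type} : Form S → ℕ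
  | .not φ => φ.qd
  | .and φ ψ => max φ.qd ψ.qd
  | .or φ ψ => max φ.qd ψ.qd
  | .ex _ φ => φ.qd + 1
  | .all _ φ => φ.qd + 1
  | _ => 0

/-- The word of length `n + 1` in the language. -/
def wu (n : ℕ) : Word (ZMod 3) :=
  (List.range (n + 1)).map fun i : ℕ => ({(i : ZMod 3)} : Set (ZMod 3))

/-- The word of length `n` outside the language. -/
def wv (n : ℕ) : Word (ZMod 3) := (List.range n).map fun i =>
  if i = 0 then {0} else if i + 1 = n then {(n : ZMod 3)} else {(i : ZMod 3), (i : ZMod 3) + 1}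

/-- The invariant. -/
def Inv (n d : ℕ) (μ ν : Var → ℕ) : Prop :=
  (∀ b, (μ b = ν b ∧ μ b + d ≤ n) ∨ (μ b = ν b + 1 ∧ d ≤ μ b ∧ μ b ≤ n)) ∧
  (∀ b c, μ b < μ c + d → μ c < μ b + d → μ b + ν c = μ c + ν b)

theorem Inv.mono {n d d' : ℕ} {μ ν : Var → ℕ} (h : Inv n d μ ν) (hd : d' ≤ d) : Inv n d' μ ν := by
  refine ⟨fun b => ?_, fun b c h1 h2 => h.2 b c (by omega) (by omega)⟩
  have := h.1 b
  omega

theorem lat_wu {n i : ℕ} (h : i < n + 1) : lat (wu n) i = {(i : ZMod 3)} := by
  simp [lat, wu, List.getD, h]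

theorem lat_wv {n i : ℕ} (h : i < n) : lat (wv n) i =
    if i = 0 then {0} else if i + 1 = n then {(n : ZMod 3)} else {(i : ZMod 3), (i : ZMod 3) + 1} := by
  simp [lat, wv, List.getD, h]

theorem game {n : ℕ} (φ : Form (ZMod 3)) : ∀ (d : ℕ), 3 * 2 ^ φ.qd ≤ d → 2 * d ≤ n →
    ∀ μ ν : Var → ℕ, Inv n d μ ν → φ.Positive → Sat (wu n) μ φ → Sat (wv n) ν φ := by
  have hlu : (wu n).length = n + 1 := by simp [wu]
  have hlv : (wv n).length = n := by simp [wv]
  induction φ with
  | top => intro d hd hn μ ν hI hp h; exact trivial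
  | bot => intro d hd hn μ ν hI hp h; exact h
  | letter a x =>
    intro d hd hn μ ν hI hp h
    simp only [Form.qd, pow_zero, mul_one] at hd
    have hx := hI.1 x
    have h' := (mem_lat_iff _ _ _).mpr h
    rw [lat_wu (by omega), Set.mem_singleton_iff] at h'
    refine (mem_lat_iff _ _ _).mp ?_
    rw [lat_wv (by omega)]
    rcases hx with ⟨h1, h2⟩ | ⟨h1, h2, h3⟩
    · by_cases h0 : ν x = 0
      · rw [if_pos h0, h', h1, h0]; simp
      · rw [if_neg h0, if_neg (by omega), h', h1]; simp
    · rw [if_neg (by omega)]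
      by_cases h4 : ν x + 1 = n
      · rw [if_pos h4, h', h1, h4]; simp
      · rw [if_neg h4, h', h1]; simp
  | le x y =>
    intro d hd hn μ ν hI hp h
    simp only [Form.qd, pow_zero, mul_one] at hd
    have hx := hI.1 x
    have hy := hI.1 y
    have hxy := hI.2 x y
    simp only [Sat] at h ⊢
    omega
  | lt x y =>
    intro d hd hn μ ν hI hp h
    simp only [Form.qd, pow_zero, mul_one] at hd
    have hx := hI.1 x
    have hy := hI.1 y
    have hxy := hI.2 x y
    simp only [Sat] at h ⊢
    omega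
  | succ x y =>
    intro d hd hn μ ν hI hp h
    simp only [Form.qd, pow_zero, mul_one] at hd
    have hx := hI.1 x
    have hy := hI.1 y
    have hxy := hI.2 x y
    simp only [Sat] at h ⊢
    omega
  | nsucc x y =>
    intro d hd hn μ ν hI hp h
    simp only [Form.qd, pow_zero, mul_one] at hd
    have hx := hI.1 x
    have hy := hI.1 y
    have hxy := hI.2 x y
    simp only [Sat] at h ⊢
    omega
  | not φ ih => intro d hd hn μ ν hI hp h; exact hp.elim
  | and φ ψ ih1 ih2 =>
    intro d hd hn μ ν hI hp h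
    simp only [Form.qd] at hd
    have e1 : 2 ^ φ.qd ≤ 2 ^ max φ.qd ψ.qd := Nat.pow_le_pow_right (by norm_num) (le_max_left _ _)
    have e2 : 2 ^ ψ.qd ≤ 2 ^ max φ.qd ψ.qd := Nat.pow_le_pow_right (by norm_num) (le_max_right _ _)
    exact ⟨ih1 d (by omega) hn μ ν hI hp.1 h.1, ih2 d (by omega) hn μ ν hI hp.2 h.2⟩
  | or φ ψ ih1 ih2 =>
    intro d hd hn μ ν hI hp h
    simp only [Form.qd] at hd
    have e1 : 2 ^ φ.qd ≤ 2 ^ max φ.qd ψ.qd := Nat.pow_le_pow_right (by norm_num) (le_max_left _ _)
    have e2 : 2 ^ ψ.qd ≤ 2 ^ max φ.qd ψ.qd := Nat.pow_le_pow_right (by norm_num) (le_max_right _ _)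
    rcases h with h | h
    · exact Or.inl (ih1 d (by omega) hn μ ν hI hp.1 h)
    · exact Or.inr (ih2 d (by omega) hn μ ν hI hp.2 h)
  | ex b φ ih =>
    intro d hd hn μ ν hI hp h
    simp only [Form.qd, pow_succ] at hd
    obtain ⟨x, hx, hs⟩ := h
    rw [hlu] at hx
    obtain ⟨e, he⟩ : ∃ e, e = 3 * 2 ^ φ.qd := ⟨_, rfl⟩
    have hde : 2 * e ≤ d := by omega
    have he3 : 3 ≤ e := by have := Nat.one_le_two_pow (n := φ.qd); omega
    have hc := hI.1 (!b)
    have key : ∃ y < n, ((x = y ∧ x + e ≤ n) ∨ (x = y + 1 ∧ e ≤ x ∧ x ≤ n)) ∧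
        (x < μ (!b) + e → μ (!b) < x + e → x + ν (!b) = μ (!b) + y) := by
      by_cases hnear : x < μ (!b) + e ∧ μ (!b) < x + e
      · rcases hc with ⟨h1, h2⟩ | ⟨h1, h2, h3⟩
        · exact ⟨x, by omega, by omega, by omega⟩
        · exact ⟨x - 1, by omega, by omega, by omega⟩
      · by_cases hsm : x < e
        · exact ⟨x, by omega, by omega, by omega⟩
        · exact ⟨x - 1, by omega, by omega, by omega⟩
    obtain ⟨y, hy, hy1, hy2⟩ := key
    refine ⟨y, by rw [hlv]; exact hy, ih e he.ge (by omega) _ _ ⟨?_, ?_⟩ hp hs⟩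
    · intro c
      have hc' := hI.1 c
      by_cases hcb : c = b
      · subst hcb; simpa using hy1
      · simp only [Function.update_of_ne hcb]; omega
    · intro c c'
      have h2 := hI.2 c c'
      by_cases hcb : c = b <;> by_cases hcb' : c' = b
      · subst hcb; subst hcb'; simp
      · subst hcb
        have : c' = !c := by cases c <;> cases c' <;> simp_all
        subst this
        simp only [Function.update_self, Function.update_of_ne hcb']
        omega
      · subst hcb'
        have : c = !c' := by cases c <;> cases c' <;> simp_all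
        subst this
        simp only [Function.update_self, Function.update_of_ne hcb]
        omega
      · simp only [Function.update_of_ne hcb', Function.update_of_ne hcb]
        omega
  | all b φ ih =>
    intro d hd hn μ ν hI hp h
    simp only [Form.qd, pow_succ] at hd
    intro y hy
    rw [hlv] at hy
    obtain ⟨e, he⟩ : ∃ e, e = 3 * 2 ^ φ.qd := ⟨_, rfl⟩
    have hde : 2 * e ≤ d := by omega
    have he3 : 3 ≤ e := by have := Nat.one_le_two_pow (n := φ.qd); omega
    have hc := hI.1 (!b)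
    have key : ∃ x < n + 1, ((x = y ∧ x + e ≤ n) ∨ (x = y + 1 ∧ e ≤ x ∧ x ≤ n)) ∧
        (x < μ (!b) + e → μ (!b) < x + e → x + ν (!b) = μ (!b) + y) := by
      by_cases hnear : y ≤ ν (!b) + e ∧ ν (!b) ≤ y + e
      · rcases hc with ⟨h1, h2⟩ | ⟨h1, h2, h3⟩
        · exact ⟨y, by omega, by omega, by omega⟩
        · exact ⟨y + 1, by omega, by omega, by omega⟩
      · by_cases hsm : y < e
        · exact ⟨y, by omega, by omega, by omega⟩
        · exact ⟨y + 1, by omega, by omega, by omega⟩
    obtain ⟨x, hx, hy1, hy2⟩ := key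
    have hs := h x (by rw [hlu]; exact hx)
    refine ih e he.ge (by omega) _ _ ⟨?_, ?_⟩ hp hs
    · intro c
      have hc' := hI.1 c
      by_cases hcb : c = b
      · subst hcb; simpa using hy1
      · simp only [Function.update_of_ne hcb]; omega
    · intro c c'
      have h2 := hI.2 c c'
      by_cases hcb : c = b <;> by_cases hcb' : c' = b
      · subst hcb; subst hcb'; simp
      · subst hcb
        have : c' = !c := by cases c <;> cases c' <;> simp_all
        subst this
        simp only [Function.update_self, Function.update_of_ne hcb']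
        omega
      · subst hcb'
        have : c = !c' := by cases c <;> cases c' <;> simp_all
        subst this
        simp only [Function.update_self, Function.update_of_ne hcb]
        omega
      · simp only [Function.update_of_ne hcb', Function.update_of_ne hcb]
        omega

theorem wu_mem (n : ℕ) : wu n ∈ theL := by
  have hlu : (wu n).length = n + 1 := by simp [wu]
  refine Or.inr (Or.inr ⟨?_, ?_⟩)
  · intro i hi j hj e
    rw [hlu] at hi hj
    rw [lat_wu hi, lat_wu hj]
    exact ⟨_, rfl, by rw [e]; push_cast; rfl⟩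
  · rintro ⟨i, z, hi, h0, -, h2⟩
    rw [hlu] at hi
    rw [lat_wu (by omega)] at h0 h2
    have e0 : (0 : ZMod 3) = z := by simpa using h0
    have e2 : ((i + 1 : ℕ) : ZMod 3) = z + (i : ZMod 3) + 2 := by simpa using h2
    rw [← e0] at e2
    push_cast at e2
    have key : ∀ i : ZMod 3, i + 1 ≠ 0 + i + 2 := by decide
    exact key _ e2

theorem wv_not_mem {n : ℕ} (hn : 3 ≤ n) : wv n ∉ theL := by
  have hlv : (wv n).length = n := by simp [wv]
  have h0 : lat (wv n) 0 = {0} := by rw [lat_wv (by omega)]; simp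
  have hne : ∀ x : ZMod 3, x + 2 ≠ x := by decide
  have hne1 : ∀ x : ZMod 3, x + 2 ≠ x + 1 := by decide
  rintro (⟨i, hi, h⟩ | ⟨i, hi, j, hj, e, x, y, h1, h2, h3⟩ | ⟨-, h⟩)
  · rw [hlv] at hi
    rw [lat_wv hi] at h
    split_ifs at h with c1 c2
    · have : (1 : ZMod 3) ∈ ({0} : Set (ZMod 3)) := by rw [h]; trivial
      simp at this
    · have : (n : ZMod 3) + 2 ∈ ({(n : ZMod 3)} : Set (ZMod 3)) := by rw [h]; trivial
      rw [Set.mem_singleton_iff] at this
      exact hne _ this
    · have : (i : ZMod 3) + 2 ∈ ({(i : ZMod 3), (i : ZMod 3) + 1} : Set (ZMod 3)) := by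
        rw [h]; trivial
      simp only [Set.mem_insert_iff, Set.mem_singleton_iff] at this
      exact this.elim (hne _) (hne1 _)
  · rw [hlv] at hi hj
    subst e
    rw [lat_wv hi] at h1
    rw [lat_wv hj, if_neg (by omega)] at h2
    split_ifs at h1 with c1 c2
    · exact pair_ne_singleton h1.symm
    · omega
    · split_ifs at h2 with c3
      · exact pair_ne_singleton h2.symm
      · have e1 := pair_inj h1
        have e2 := pair_inj h2
        apply h3
        rw [← e1, ← e2]; push_cast; rfl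
  · apply h
    refine ⟨n - 2, 0, by rw [hlv]; omega, h0, ?_, ?_⟩
    · intro p hp
      rw [lat_wv (by omega)]
      split_ifs with c1 c2
      · rw [c1]; simp
      · omega
      · simp
    · rw [lat_wv (by omega), if_neg (by omega), if_pos (by omega)]
      have : ((n : ℕ) : ZMod 3) = ((n - 2 + 2 : ℕ) : ZMod 3) := by congr 1; omega
      rw [this]; push_cast; congr 1; ring

theorem theL_not_pos : ¬ FO2Pos .orderSucc theL := by
  rintro ⟨φ, -, -, hp, h⟩
  have h1 := (h (wu (2 * (3 * 2 ^ φ.qd)))).mp (wu_mem _)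
  have hpos := Nat.one_le_two_pow (n := φ.qd)
  have h2 : Holds (wv (2 * (3 * 2 ^ φ.qd))) φ := by
    refine game φ (3 * 2 ^ φ.qd) le_rfl le_rfl _ _ ⟨?_, ?_⟩ hp h1
    · intro b; left; constructor
      · rfl
      · omega
    · intro b c _ _; rfl
  exact wv_not_mem (by omega) ((h _).mpr h2)

end Pool.Agent.Lib.MP_eaaecb_lc
end
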